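import Mathlib

/-! Triples of polynomials with an action of the cyclic group of order three. -/

namespace Pool.Agent.MP_c07293_an.H11

open Polynomial

variable {F : Type} [Field F]

/-- triples of polynomials -/
abbrev V (F : Type) [Field F] := Fin 3 → F[X]

/-- the multipliers of the affine maps -/
def W (w : F) : Fin 3 → F := ![1, w, w ^ 2]

/-- the three points -/
def P (w : F) : Fin 3 → F := ![0, 1, w + 1]

section pts
variable {w : F} (hw : w ^ 2 + w + 1 = 0)
include hw

theorem w3 : w ^ 3 = 1 := by linear_combination (w - 1) * hw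

theorem W_add (r s : Fin 3) : W w (r + s) = W w r * W w s := by
  have h := w3 hw
  fin_cases r <;> fin_cases s <;> simp [W] <;>
    first
      | ring1
      | linear_combination (-1 : F) * h
      | linear_combination (-w) * h

theorem P_add (r s : Fin 3) : P w (r + s) = W w s * P w r + P w s := by
  have h := w3 hw
  fin_cases r <;> fin_cases s <;> simp [W, P] <;>
    first
      | ring1
      | linear_combination (-1 : F) * hw
      | linear_combination (-1 : F) * hw - h

theorem W_ne (r : Fin 3) : W w r ≠ 0 := by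
  have h : w ≠ 0 := by rintro rfl; simp at hw
  fin_cases r <;> simp [W, h]

theorem P_inj : Function.Injective (P w) := by
  have h0 : w ≠ 0 := by rintro rfl; simp at hw
  have h1 : w + 1 ≠ 0 := fun h => one_ne_zero (α := F) (by linear_combination hw - w * h)
  intro r s
  fin_cases r <;> fin_cases s <;> simp [P, h0, h1, h1.symm]

end pts

/-- the substitution -/
noncomputable def sg (w : F) (r : Fin 3) : F[X] →ₐ[F] F[X] := aeval (C (W w r) * X + C (P w r))

theorem sg_X (w : F) (r : Fin 3) : sg w r X = C (W w r) * X + C (P w r) := aeval_X _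

theorem sg_C (w : F) (r : Fin 3) (a : F) : sg w r (C a) = C a := aeval_C _ _

theorem sg_zero (w : F) (q : F[X]) : sg w 0 q = q := by simp [sg, W, P]

theorem sg_sg {w : F} (hw : w ^ 2 + w + 1 = 0) (r s : Fin 3) (q : F[X]) :
    sg w r (sg w s q) = sg w (r + s) q := by
  have : (sg w r).comp (sg w s) = sg w (r + s) := by
    refine algHom_ext ?_
    simp only [AlgHom.comp_apply, sg_X, map_add, map_mul, sg_C, W_add hw, P_add hw]
    ring
  exact DFunLike.congr_fun this q

theorem eval_sg (w : F) (r : Fin 3) (q : F[X]) (x : F) :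
    eval x (sg w r q) = eval (W w r * x + P w r) q := by
  rw [sg, ← comp_eq_aeval, eval_comp]; simp

/-- vanishing of the coefficients from degree `d` on -/
def pl (d : ℕ) (q : F[X]) : Prop := ∀ n, d ≤ n → q.coeff n = 0

theorem pl_succ {d : ℕ} {q : F[X]} : pl (d + 1) q ↔ q.natDegree ≤ d :=
  natDegree_le_iff_coeff_eq_zero.symm

theorem pl.mono {d e : ℕ} {q : F[X]} (h : pl d q) (hd : d ≤ e) : pl e q :=
  fun n hn => h n (hd.trans hn)

theorem pl_zero {q : F[X]} (h : pl 0 q) : q = 0 := by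
  ext n; exact h n (Nat.zero_le _)

theorem pl_of_zero (d : ℕ) : pl d (0 : F[X]) := fun _ _ => coeff_zero _

theorem pl.add {d : ℕ} {a b : F[X]} (ha : pl d a) (hb : pl d b) : pl d (a + b) :=
  fun n hn => by rw [coeff_add, ha n hn, hb n hn, add_zero]

theorem pl.sub {d : ℕ} {a b : F[X]} (ha : pl d a) (hb : pl d b) : pl d (a - b) :=
  fun n hn => by rw [coeff_sub, ha n hn, hb n hn, sub_zero]

theorem pl_sum {ι : Type*} {d : ℕ} (s : Finset ι) (f : ι → F[X]) (h : ∀ i ∈ s, pl d (f i)) :
    pl d (∑ i ∈ s, f i) :=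
  fun n hn => by rw [finsetSum_coeff]; exact Finset.sum_eq_zero fun i hi => h i hi n hn

theorem pl.mul {d e : ℕ} {a b : F[X]} (ha : pl d a) (hb : pl (e + 1) b) : pl (d + e) (a * b) := by
  rcases d with _ | d
  · rw [pl_zero ha, zero_mul]; exact pl_of_zero _
  · rw [show d + 1 + e = d + e + 1 by ring, pl_succ]
    exact natDegree_mul_le.trans (add_le_add (pl_succ.mp ha) (pl_succ.mp hb))

theorem pl.sg {d : ℕ} {q : F[X]} (h : pl d q) (w : F) (r : Fin 3) : pl d (sg w r q) := by
  rcases d with _ | d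
  · rw [pl_zero h, map_zero]; exact pl_of_zero _
  · rw [pl_succ] at h ⊢
    rw [H11.sg, ← comp_eq_aeval]
    refine natDegree_comp_le.trans ?_
    have : (C (W w r) * X + C (P w r) : F[X]).natDegree ≤ 1 := natDegree_linear_le
    calc _ ≤ d * 1 := Nat.mul_le_mul h this
      _ = d := mul_one _

theorem pl.of_dvd {d : ℕ} {q a : F[X]} (h : pl d q) (ha : a ∣ q) (hd : d ≤ a.natDegree) :
    q = 0 := by
  by_contra h0
  have h1 := natDegree_le_of_dvd ha h0
  exact h0 (leadingCoeff_eq_zero.mp (h _ (hd.trans h1)))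

theorem pl_C (a : F) : pl 1 (C a) := pl_succ.mpr (natDegree_C a).le

/-- degree bound for triples -/
def Lt (d : ℕ) (g : V F) : Prop := ∀ i, pl d (g i)

theorem Lt.mono {d e : ℕ} {g : V F} (h : Lt d g) (hd : d ≤ e) : Lt e g := fun i => (h i).mono hd

theorem Lt.zero {g : V F} (h : Lt 0 g) : g = 0 := funext fun i => pl_zero (h i)

theorem exists_Lt (g : V F) : ∃ d, Lt d g :=
  ⟨(∑ i, (g i).natDegree) + 1, fun i => pl_succ.mpr
    (Finset.single_le_sum (f := fun i => (g i).natDegree) (fun _ _ => Nat.zero_le _)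
      (Finset.mem_univ i))⟩

/-- the action on triples -/
noncomputable def rh (w : F) (r : Fin 3) : V F →ₗ[F] V F where
  toFun g i := sg w r (g (i - r))
  map_add' a b := by ext1 i; simp
  map_smul' c a := by ext1 i; simp

theorem rh_apply (w : F) (r : Fin 3) (g : V F) (i : Fin 3) : rh w r g i = sg w r (g (i - r)) := rfl

theorem rh_zero (w : F) (g : V F) : rh w 0 g = g := by
  ext1 i; rw [rh_apply, sg_zero, sub_zero]

theorem rh_rh {w : F} (hw : w ^ 2 + w + 1 = 0) (r s : Fin 3) (g : V F) :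
    rh w r (rh w s g) = rh w (r + s) g := by
  ext1 i; rw [rh_apply, rh_apply, rh_apply, sg_sg hw, sub_sub]

theorem rh_smul (w : F) (r : Fin 3) (q : F[X]) (g : V F) :
    rh w r (q • g) = sg w r q • rh w r g := by
  ext1 i; simp [rh_apply]

theorem Lt.rh {d : ℕ} {g : V F} (h : Lt d g) (w : F) (r : Fin 3) : Lt d (rh w r g) :=
  fun _ => (h _).sg w r

/-- the equivariant map with generator `v` -/
noncomputable def Ph (w : F) (v : V F) : V F →ₗ[F[X]] V F where
  toFun g := ∑ j, g j • rh w j v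
  map_add' a b := by simp [add_smul, Finset.sum_add_distrib]
  map_smul' c a := by simp [Finset.smul_sum, mul_smul]

theorem Ph_def (w : F) (v g : V F) : Ph w v g = ∑ j, g j • rh w j v := rfl

theorem Ph_apply (w : F) (v g : V F) (i : Fin 3) : Ph w v g i = ∑ j, g j * rh w j v i := by
  rw [Ph_def, Finset.sum_apply]; rfl

theorem rh_Ph {w : F} (hw : w ^ 2 + w + 1 = 0) (r : Fin 3) (v g : V F) :
    rh w r (Ph w v g) = Ph w v (rh w r g) := by
  rw [Ph_def, Ph_def, map_sum]
  refine Fintype.sum_equiv (Equiv.addLeft r) _ _ fun j => ?_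
  rw [rh_smul, rh_rh hw, Equiv.coe_addLeft, rh_apply, add_sub_cancel_left]

theorem Ph_Ph {w : F} (hw : w ^ 2 + w + 1 = 0) (v u g : V F) :
    Ph w v (Ph w u g) = Ph w (Ph w v u) g := by
  rw [Ph_def w u, Ph_def w (Ph w v u), map_sum]
  exact Finset.sum_congr rfl fun j _ => by rw [map_smul, rh_Ph hw]

theorem Lt.Ph {d m : ℕ} {g v : V F} (hg : Lt d g) (hv : Lt (m + 1) v) (w : F) :
    Lt (d + m) (Ph w v g) := fun i => by
  rw [Ph_apply]
  exact pl_sum _ _ fun j _ => (hg j).mul (hv.rh w j i)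

/-- constant triples -/
noncomputable def cst (c : Fin 3 → F) : V F := fun j => C (c j)

theorem coeff_Ph {d m : ℕ} {g v : V F} (hg : Lt (d + 1) g) (hv : Lt (m + 1) v) (w : F)
    (i : Fin 3) :
    (Ph w v g i).coeff (d + m) = (Ph w v (cst fun j => (g j).coeff d) i).coeff m := by
  rw [Ph_apply, Ph_apply, finsetSum_coeff, finsetSum_coeff]
  refine Finset.sum_congr rfl fun j _ => ?_
  rw [coeff_mul_add_eq_of_natDegree_le (pl_succ.mp (hg j)) (pl_succ.mp (hv.rh w j i)), cst,
    coeff_C_mul]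

/-- the generator has a regular top coefficient -/
def Top (w : F) (m : ℕ) (v : V F) : Prop :=
  Lt (m + 1) v ∧ ∀ c : Fin 3 → F, (∀ i, (Ph w v (cst c) i).coeff m = 0) → c = 0

theorem Top.deg {w : F} {m : ℕ} {v : V F} (h : Top w m v) {g : V F} {d : ℕ}
    (hg : Lt (d + m) (Ph w v g)) : Lt d g := by
  obtain ⟨D, hD⟩ := exists_Lt g
  have key : ∀ n, Lt (d + n) g → Lt d g := by
    intro n
    induction n with
    | zero => exact id
    | succ n ih =>
      intro h1
      refine ih fun j k hk => ?_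
      rcases hk.eq_or_lt with rfl | hk
      · refine congrFun (h.2 (fun j => (g j).coeff (d + n)) fun i => ?_) j
        rw [← coeff_Ph (d := d + n) h1 h.1]
        exact hg i _ (by omega)
      · exact h1 j k hk
  exact key D (hD.mono (by omega))

theorem Lt_cst (c : Fin 3 → F) : Lt 1 (cst c) := fun _ => pl_C _

theorem top_of {w : F} {m : ℕ} {v : V F} (h : Lt (m + 1) v)
    (h2 : ∀ c : Fin 3 → F, Lt m (Ph w v (cst c)) → c = 0) : Top w m v := by
  refine ⟨h, fun c hc => h2 c fun i n hn => ?_⟩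
  rcases hn.eq_or_lt with rfl | hn
  · exact hc i
  · exact (Lt_cst c).Ph h w i n (by omega)

theorem Top.comp {w : F} (hw : w ^ 2 + w + 1 = 0) {m n : ℕ} {v u : V F} (hv : Top w m v)
    (hu : Top w n u) : Top w (n + m) (Ph w v u) := by
  refine top_of (by rw [show n + m + 1 = n + 1 + m by ring]; exact hu.1.Ph hv.1 w) fun c hc => ?_
  rw [← Ph_Ph hw] at hc
  have h1 : Lt 0 (cst c) := hu.deg (by rw [zero_add]; exact hv.deg hc)
  funext j
  simpa [cst] using congrFun h1.zero j

theorem Top.surj {w : F} {m : ℕ} {v : V F} (h : Top w m v) (S : Submodule F[X] (V F))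
    (hv : ∀ j, rh w j v ∈ S) (h0 : ∀ g ∈ S, Lt m g → g = 0) : ∀ g ∈ S, ∃ u, g = Ph w v u := by
  let L : (Fin 3 → F) →ₗ[F] (Fin 3 → F) :=
    { toFun := fun c i => (Ph w v (cst c) i).coeff m
      map_add' := fun a b => by
        have : cst (a + b) = cst a + cst b := by ext1 j; simp [cst]
        ext1 i; simp [this]
      map_smul' := fun a b => by
        have : cst (a • b) = C a • cst b := by ext1 j; simp [cst]
        ext1 i; simp [this] }
  have hL : Function.Surjective L := LinearMap.injective_iff_surjective.mp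
    ((injective_iff_map_eq_zero L).mpr fun c hc => h.2 c fun i => congrFun hc i)
  have hP : ∀ u, Ph w v u ∈ S := fun u => by
    rw [Ph_def]; exact S.sum_mem fun j _ => S.smul_mem _ (hv j)
  have key : ∀ d, ∀ g ∈ S, Lt (d + m) g → ∃ u, g = Ph w v u := by
    intro d
    induction d with
    | zero => exact fun g hg h1 => ⟨0, by rw [map_zero]; exact h0 g hg (by simpa using h1)⟩
    | succ d ih =>
      intro g hg h1
      obtain ⟨c, hc⟩ := hL fun i => (g i).coeff (d + m)
      have h2 : Lt (d + 1) fun j => monomial d (c j) := fun j =>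
        pl_succ.mpr (natDegree_monomial_le _)
      obtain ⟨u, hu⟩ := ih (g - Ph w v fun j => monomial d (c j)) (S.sub_mem hg (hP _)) (by
        intro i n hn
        rcases hn.eq_or_lt with rfl | hn
        · rw [Pi.sub_apply, coeff_sub, coeff_Ph h2 h.1]
          simp only [coeff_monomial_same]
          exact sub_eq_zero.mpr (congrFun hc i).symm
        · exact ((h1 i).sub (h2.Ph h.1 w i)) n (by omega))
      exact ⟨u + fun j => monomial d (c j), by rw [map_add, ← hu, sub_add_cancel]⟩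
  intro g hg
  obtain ⟨D, hD⟩ := exists_Lt g
  exact key D g hg (hD.mono (by omega))

/-- monomial triples -/
noncomputable def mn {d : ℕ} (k : Fin 3 × Fin d) : V F := Pi.single k.1 (monomial k.2 1)

theorem coeff_mn {d : ℕ} (c : Fin 3 × Fin d → F) (i : Fin 3) (n : ℕ) :
    ((∑ k, c k • mn k : V F) i).coeff n = if h : n < d then c (i, ⟨n, h⟩) else 0 := by
  rw [Finset.sum_apply, finsetSum_coeff]
  split_ifs with h
  · rw [Finset.sum_eq_single (i, ⟨n, h⟩)]
    · simp [mn]
    · rintro ⟨j, t⟩ - hne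
      by_cases hj : i = j
      · subst hj
        have : (t : ℕ) ≠ n := fun e => hne (by subst e; rfl)
        simp [mn, coeff_monomial, this]
      · simp [mn, hj]
    · simp
  · refine Finset.sum_eq_zero fun k _ => ?_
    have : (k.2 : ℕ) ≠ n := fun e => h (e ▸ k.2.2)
    by_cases hj : i = k.1
    · subst hj; simp [mn, coeff_monomial, this]
    · simp [mn, hj]

theorem Lt_mn {d : ℕ} (c : Fin 3 × Fin d → F) : Lt d (∑ k, c k • mn k : V F) :=
  fun i n hn => by rw [coeff_mn, dif_neg (by omega)]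

theorem mn_ne {d : ℕ} {c : Fin 3 × Fin d → F} (hc : c ≠ 0) : (∑ k, c k • mn k : V F) ≠ 0 := by
  intro h
  refine hc (funext fun k => ?_)
  have := coeff_mn c k.1 k.2
  rw [h, dif_pos k.2.2] at this
  simpa using this.symm

theorem Lt.repr {d : ℕ} {g : V F} (h : Lt d g) :
    g = ∑ k : Fin 3 × Fin d, (g k.1).coeff k.2 • mn k := by
  ext i n
  rw [coeff_mn]
  split_ifs with hn
  · rfl
  · exact h i n (by omega)

theorem exists_sol {ι : Type} [Fintype ι] {d : ℕ} (A : ι → V F →ₗ[F] F)
    (hc : Fintype.card ι < 3 * d) : ∃ g, g ≠ 0 ∧ Lt d g ∧ ∀ i, A i g = 0 := by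
  let L : (Fin 3 × Fin d → F) →ₗ[F] (ι → F) :=
    (LinearMap.pi A).comp (Fintype.linearCombination F mn)
  have h := L.ker_ne_bot_of_finrank_lt (by simpa using hc)
  obtain ⟨c, hc1, hc0⟩ := (Submodule.ne_bot_iff _).mp h
  exact ⟨_, mn_ne hc0, Lt_mn c, fun i => congrFun (LinearMap.mem_ker.mp hc1) i⟩

theorem special {ι : Type} [Fintype ι] {d : ℕ} (A B : ι → V F →ₗ[F] F)
    (hc : Fintype.card ι = 3 * d) (Z : Finset F) (hZ : 3 * d < Z.card)
    (h : ∀ y ∈ Z, ∃ g, g ≠ 0 ∧ Lt d g ∧ ∀ i, A i g + y * B i g = 0) :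
    ∃ g, g ≠ 0 ∧ Lt d g ∧ ∀ i, A i g = 0 := by
  classical
  obtain ⟨e⟩ : Nonempty (Fin 3 × Fin d ≃ ι) := Fintype.card_eq.mp (by simp [hc])
  set MA : Matrix (Fin 3 × Fin d) (Fin 3 × Fin d) F := Matrix.of fun i k => A (e i) (mn k)
  set MB : Matrix (Fin 3 × Fin d) (Fin 3 × Fin d) F := Matrix.of fun i k => B (e i) (mn k)
  have hD : Matrix.det ((X : F[X]) • MB.map C + MA.map C) = 0 := by
    refine eq_zero_of_natDegree_lt_card_of_eval_eq_zero' _ Z (fun y hy => ?_)
      ((natDegree_det_X_add_C_le MB MA).trans_lt (by simpa using hZ))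
    obtain ⟨g, hg0, hg, hA⟩ := h y hy
    rw [← coe_evalRingHom, RingHom.map_det]
    refine Matrix.exists_mulVec_eq_zero_iff.mp ⟨fun k => (g k.1).coeff k.2, fun h0 => hg0 ?_, ?_⟩
    · rw [hg.repr]
      exact Finset.sum_eq_zero fun k _ => by rw [congrFun h0 k]; simp
    · funext i
      have := hA (e i)
      rw [hg.repr, map_sum, map_sum, Finset.mul_sum, ← Finset.sum_add_distrib] at this
      rw [Pi.zero_apply, ← this, Matrix.mulVec, dotProduct]
      refine Finset.sum_congr rfl fun k _ => ?_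
      simp [MA, MB]
      ring
  have h0 : MA.det = 0 := by rw [← coeff_det_X_add_C_zero MB MA, hD, coeff_zero]
  obtain ⟨c, hc0, hc1⟩ := Matrix.exists_mulVec_eq_zero_iff.mpr h0
  refine ⟨_, mn_ne hc0, Lt_mn c, fun i => ?_⟩
  have := congrFun hc1 (e.symm i)
  rw [Pi.zero_apply] at this
  rw [map_sum, ← this, Matrix.mulVec, dotProduct]
  refine Finset.sum_congr rfl fun k _ => ?_
  simp [MA, mul_comm]

section cartier
variable (p : ℕ) [hp : Fact p.Prime] [CharP F p]

theorem coeff_car (h : Fin p → F[X]) (t : Fin p) (n : ℕ) :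
    (∑ s : Fin p, X ^ (s : ℕ) * h s ^ p).coeff (p * n + t) = (h t).coeff n ^ p := by
  have h0 : 0 < p := hp.out.pos
  rw [finsetSum_coeff, Finset.sum_eq_single t]
  · rw [coeff_X_pow_mul', if_pos (by omega), ← map_frobenius_expand, coeff_map, coeff_expand h0,
      Nat.add_sub_cancel, if_pos (dvd_mul_right _ _), Nat.mul_div_cancel_left _ h0, frobenius_def]
  · intro s _ hs
    rw [coeff_X_pow_mul']
    split_ifs with h1
    · rw [← map_frobenius_expand, coeff_map, coeff_expand h0, if_neg, map_zero]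
      rintro ⟨k, hk⟩
      have h2 : (p * n + t) % p = (p * k + s) % p := by congr 1; omega
      rw [Nat.mul_add_mod, Nat.mul_add_mod, Nat.mod_eq_of_lt t.2, Nat.mod_eq_of_lt s.2] at h2
      exact hs (Fin.ext h2.symm)
    · rfl
  · simp

variable [Finite F]

theorem car_ex (f : F[X]) : ∃ h : Fin p → F[X], f = ∑ s : Fin p, X ^ (s : ℕ) * h s ^ p := by
  have h0 : 0 < p := hp.out.pos
  induction f using Polynomial.induction_on' with
  | add a b ha hb =>
    obtain ⟨u, hu⟩ := ha
    obtain ⟨v, hv⟩ := hb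
    refine ⟨u + v, ?_⟩
    rw [hu, hv, ← Finset.sum_add_distrib]
    exact Finset.sum_congr rfl fun s _ => by rw [Pi.add_apply, add_pow_char, mul_add]
  | monomial n a =>
    obtain ⟨b, hb⟩ := (frobeniusEquiv F p).surjective a
    refine ⟨Pi.single ⟨n % p, Nat.mod_lt _ h0⟩ (monomial (n / p) b), ?_⟩
    rw [Finset.sum_eq_single ⟨n % p, Nat.mod_lt _ h0⟩]
    · rw [Pi.single_eq_same, monomial_pow, X_pow_mul_monomial, Nat.div_add_mod', ← hb]
      rfl
    · intro s _ hs
      rw [Pi.single_eq_of_ne hs, zero_pow h0.ne', mul_zero]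
    · simp

theorem car_dvd {Q : F[X]} {h : Fin p → F[X]} (hd : Q ^ p ∣ ∑ s : Fin p, X ^ (s : ℕ) * h s ^ p)
    (t : Fin p) : Q ∣ h t := by
  obtain ⟨G, hG⟩ := hd
  obtain ⟨u, rfl⟩ := car_ex p G
  refine ⟨u t, ?_⟩
  ext n
  apply (frobenius F p).injective
  rw [frobenius_def, frobenius_def, ← coeff_car p h, hG, ← coeff_car p (fun s => Q * u s),
    Finset.mul_sum]
  congr 1
  exact Finset.sum_congr rfl fun s _ => by ring

end cartier

end Pool.Agent.MP_c07293_an.H11
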