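import Pool.Agent.MP_c07293_an.H11.Basic

/-! Modifications of the trivial triple module and the closure of the set of labels. -/

namespace Pool.Agent.MP_c07293_an.H11

open Polynomial

variable {F : Type} [Field F]

/-- the conditions at the first point -/
def N0 (s : F) (α β : Fin 3) (δ a b : ℕ) (x y : F) : Submodule F[X] (V F) where
  carrier := {g | X ^ b ∣ g β ∧ X ^ a ∣ g α + C x * g β ∧ (X - C s) ^ δ ∣ g 0 - C y * g 1}
  add_mem' := by
    rintro f g ⟨f1, f2, f3⟩ ⟨g1, g2, g3⟩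
    refine ⟨dvd_add f1 g1, ?_, ?_⟩
    · convert dvd_add f2 g2 using 1; simp only [Pi.add_apply]; ring
    · convert dvd_add f3 g3 using 1; simp only [Pi.add_apply]; ring
  zero_mem' := by simp
  smul_mem' := by
    rintro q g ⟨g1, g2, g3⟩
    refine ⟨g1.mul_left q, ?_, ?_⟩
    · convert g2.mul_left q using 1; simp only [Pi.smul_apply, smul_eq_mul]; ring
    · convert g3.mul_left q using 1; simp only [Pi.smul_apply, smul_eq_mul]; ring

theorem mem_N0 {s : F} {α β : Fin 3} {δ a b : ℕ} {x y : F} {g : V F} : g ∈ N0 s α β δ a b x y ↔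
    X ^ b ∣ g β ∧ X ^ a ∣ g α + C x * g β ∧ (X - C s) ^ δ ∣ g 0 - C y * g 1 := Iff.rfl

/-- the equivariant part of a module -/
def EE (w : F) (S : Submodule F[X] (V F)) : Submodule F[X] (V F) where
  carrier := {g | ∀ r, rh w r g ∈ S}
  add_mem' hf hg r := by rw [map_add]; exact S.add_mem (hf r) (hg r)
  zero_mem' r := by rw [map_zero]; exact S.zero_mem
  smul_mem' q g hg r := by rw [rh_smul]; exact S.smul_mem _ (hg r)

theorem mem_EE {w : F} {S : Submodule F[X] (V F)} {g : V F} :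
    g ∈ EE w S ↔ ∀ r, rh w r g ∈ S := Iff.rfl

theorem EE_rh {w : F} (hw : w ^ 2 + w + 1 = 0) {S : Submodule F[X] (V F)} {g : V F}
    (hg : g ∈ EE w S) (j : Fin 3) : rh w j g ∈ EE w S :=
  fun r => by rw [rh_rh hw]; exact hg _

theorem EE_self {w : F} {S : Submodule F[X] (V F)} {g : V F} (hg : g ∈ EE w S) : g ∈ S :=
  rh_zero w g ▸ hg 0

/-- a coefficient of a coordinate -/
noncomputable def cf (i : Fin 3) (t : ℕ) : V F →ₗ[F] F := (lcoeff F t).comp (LinearMap.proj i)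

theorem cf_apply (i : Fin 3) (t : ℕ) (g : V F) : cf i t g = (g i).coeff t := rfl

/-- a value of a coordinate -/
noncomputable def vl (i : Fin 3) (s : F) : V F →ₗ[F] F := (leval s).comp (LinearMap.proj i)

theorem vl_apply (i : Fin 3) (s : F) (g : V F) : vl i s g = (g i).eval s := rfl

/-- constant part of the conditions -/
noncomputable def AA (w s : F) (α β : Fin 3) (δ a b : ℕ)
    (k : Fin 3 × (Fin b ⊕ Fin a ⊕ Fin δ)) : V F →ₗ[F] F :=
  (Sum.elim (fun t : Fin b => cf β t)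
    (Sum.elim (fun t : Fin a => cf α t) fun _ : Fin δ => vl 0 s) k.2).comp (rh w k.1)

/-- linear part of the conditions -/
noncomputable def BB (w s ξ : F) (β : Fin 3) (δ a b : ℕ)
    (k : Fin 3 × (Fin b ⊕ Fin a ⊕ Fin δ)) : V F →ₗ[F] F :=
  (Sum.elim (fun _ : Fin b => 0)
    (Sum.elim (fun t : Fin a => ξ • cf β t) fun _ : Fin δ => -vl 1 s) k.2).comp (rh w k.1)

theorem mem_iff {w s ξ y : F} {α β : Fin 3} {δ a b : ℕ} (hδ : δ ≤ 1) {g : V F} :
    g ∈ EE w (N0 s α β δ a b (ξ * y) y) ↔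
      ∀ k, AA w s α β δ a b k g + y * BB w s ξ β δ a b k g = 0 := by
  rw [mem_EE, Prod.forall]
  refine forall_congr' fun r => ?_
  rw [mem_N0, Sum.forall, Sum.forall, X_pow_dvd_iff, X_pow_dvd_iff]
  refine and_congr ?_ (and_congr ?_ ?_)
  · simp [AA, BB, cf_apply, Fin.forall_iff]
  · simp only [AA, BB, Sum.elim_inr, Sum.elim_inl, LinearMap.comp_apply, LinearMap.smul_apply,
      cf_apply, Fin.forall_iff, coeff_add, coeff_C_mul, smul_eq_mul]
    refine forall_congr' fun t => forall_congr' fun _ => ?_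
    rw [mul_comm ξ y, mul_assoc]
  · rcases Nat.le_one_iff_eq_zero_or_eq_one.mp hδ with rfl | rfl
    · simp
    · simp [AA, BB, vl_apply, sub_eq_add_neg]
      rw [← sub_eq_add_neg, dvd_iff_isRoot]
      simp

/-- the data: a field with a cube root of unity, a point and an automorphism of prime order -/
structure Ctx (F : Type) [Field F] (p : ℕ) where
  w : F
  s : F
  hw : w ^ 2 + w + 1 = 0
  φ : F →+* F
  m : ℕ
  hm : m.Prime
  big : 6 * p < m
  per : ∀ x, φ^[m] x = x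
  φw : φ w = w
  φs : φ s = s
  hs : ∀ r, s ≠ P w r

variable {p : ℕ} (c : Ctx F p)

theorem Ctx.orbit {y : F} (hy : c.φ y ≠ y) :
    ∃ Z : Finset F, Z.card = c.m ∧ ∀ z ∈ Z, ∃ n, z = c.φ^[n] y := by
  classical
  have h1 : Function.minimalPeriod c.φ y = c.m := by
    have hd : Function.minimalPeriod c.φ y ∣ c.m :=
      Function.IsPeriodicPt.minimalPeriod_dvd (c.per y)
    refine ((Nat.dvd_prime c.hm).mp hd).resolve_left fun h => hy ?_
    exact Function.minimalPeriod_eq_one_iff_isFixedPt.mp h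
  refine ⟨(Finset.range c.m).image fun n => c.φ^[n] y, ?_, fun z hz => ?_⟩
  · rw [Finset.card_image_of_injOn, Finset.card_range]
    rw [Finset.coe_range, ← h1]
    exact Function.iterate_injOn_Iio_minimalPeriod
  · obtain ⟨n, -, rfl⟩ := Finset.mem_image.mp hz
    exact ⟨n, rfl⟩

/-- conjugation of triples -/
noncomputable def Ctx.cj (g : V F) : V F := fun i => (g i).map c.φ

theorem Ctx.φW (r : Fin 3) : c.φ (W c.w r) = W c.w r := by
  fin_cases r <;> simp [W, c.φw]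

theorem Ctx.φP (r : Fin 3) : c.φ (P c.w r) = P c.w r := by
  fin_cases r <;> simp [P, c.φw]

theorem Ctx.rh_cj (r : Fin 3) (g : V F) : rh c.w r (c.cj g) = c.cj (rh c.w r g) := by
  ext1 i
  simp only [rh_apply, Ctx.cj, sg, ← comp_eq_aeval, map_comp, Polynomial.map_add,
    Polynomial.map_mul, map_C, map_X, c.φW, c.φP]

theorem Ctx.cf_cj (i : Fin 3) (t : ℕ) (g : V F) : cf i t (c.cj g) = c.φ (cf i t g) :=
  coeff_map _ _

theorem Ctx.vl_cj (i : Fin 3) (g : V F) : vl i c.s (c.cj g) = c.φ (vl i c.s g) := by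
  rw [vl_apply, vl_apply, Ctx.cj]
  conv_lhs => rw [← c.φs]
  rw [eval_map, eval₂_hom]

theorem Ctx.pencil {ι : Type} [Fintype ι] {d : ℕ} (A B : ι → V F →ₗ[F] F)
    (hA : ∀ k g, A k (c.cj g) = c.φ (A k g)) (hB : ∀ k g, B k (c.cj g) = c.φ (B k g))
    (hc : Fintype.card ι = 3 * d) (hd : d ≤ 2 * p) {y : F} (hy : y = 0 ∨ c.φ y ≠ y)
    (h0 : ∀ g, Lt d g → (∀ k, A k g = 0) → g = 0) {g : V F} (hg : Lt d g)
    (h : ∀ k, A k g + y * B k g = 0) : g = 0 := by
  rcases hy with rfl | hy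
  · exact h0 g hg (by simpa using h)
  by_contra hg0
  obtain ⟨Z, hZ, hZ'⟩ := c.orbit hy
  have key : ∀ n, ∃ g, g ≠ 0 ∧ Lt d g ∧ ∀ k, A k g + c.φ^[n] y * B k g = 0 := by
    intro n
    induction n with
    | zero => exact ⟨g, hg0, hg, h⟩
    | succ n ih =>
      obtain ⟨u, u0, u1, u2⟩ := ih
      refine ⟨c.cj u, fun e => u0 (funext fun i => ?_), fun i n hn => ?_, fun k => ?_⟩
      · exact (Polynomial.map_eq_zero c.φ).mp (congrFun e i)
      · rw [Ctx.cj, coeff_map, u1 i n hn, map_zero]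
      · rw [hA, hB, Function.iterate_succ_apply', ← map_mul, ← map_add, u2, map_zero]
  obtain ⟨u, u0, u1, u2⟩ := special A B hc Z (by have := c.big; omega) fun z hz => by
    obtain ⟨n, rfl⟩ := hZ' z hz
    exact key n
  exact u0 (h0 u u1 u2)

theorem Ctx.AA_cj (α β : Fin 3) (δ a b : ℕ) (k : Fin 3 × (Fin b ⊕ Fin a ⊕ Fin δ)) (g : V F) :
    AA c.w c.s α β δ a b k (c.cj g) = c.φ (AA c.w c.s α β δ a b k g) := by
  rcases k with ⟨r, t | t | t⟩ <;> simp [AA, c.rh_cj, c.cf_cj, c.vl_cj]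

theorem Ctx.BB_cj {ξ : F} (hξ : c.φ ξ = ξ) (β : Fin 3) (δ a b : ℕ)
    (k : Fin 3 × (Fin b ⊕ Fin a ⊕ Fin δ)) (g : V F) :
    BB c.w c.s ξ β δ a b k (c.cj g) = c.φ (BB c.w c.s ξ β δ a b k g) := by
  rcases k with ⟨r, t | t | t⟩ <;> simp [BB, c.rh_cj, c.cf_cj, c.vl_cj, hξ]

theorem root_dvd {w : F} (hw : w ^ 2 + w + 1 = 0) (r : Fin 3) {a : ℕ} {G : F[X]}
    (h : X ^ a ∣ sg w r G) : (X - C (P w r)) ^ a ∣ G := by
  have h1 := map_dvd (sg w (-r)) h
  rw [sg_sg hw, neg_add_cancel, sg_zero, map_pow, sg_X] at h1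
  refine (pow_dvd_pow_of_dvd ⟨C (W w (-r)), ?_⟩ a).trans h1
  have h2 := P_add hw r (-r)
  rw [add_neg_cancel] at h2
  have h3 : P w (-r) = -(W w (-r) * P w r) := by
    have : P w 0 = 0 := rfl
    linear_combination this - h2
  rw [h3, map_neg, map_mul]; ring

theorem Ctx.mono {α β : Fin 3} (hne : α ≠ β) {δ a b : ℕ} {G : F[X]} (i : Fin 3)
    (h1 : X ^ a ∣ sg c.w (α - i) G) (h2 : X ^ b ∣ sg c.w (β - i) G)
    (h3 : (X - C c.s) ^ δ ∣ sg c.w (-i) G) (h : pl (a + b + δ) G) : G = 0 := by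
  rw [sub_eq_add_neg, ← sg_sg c.hw] at h1 h2
  have cp : ∀ {x y : F}, x ≠ y → ∀ k l : ℕ, IsCoprime ((X - C x) ^ k) ((X - C y) ^ l) :=
    fun h k l => (isCoprime_X_sub_C_of_isUnit_sub (sub_ne_zero.mpr h).isUnit).pow
  have h4 := ((cp (c.hs α).symm a δ).mul_left (cp (c.hs β).symm b δ)).mul_dvd
    ((cp ((P_inj c.hw).ne hne) a b).mul_dvd (root_dvd c.hw α h1) (root_dvd c.hw β h2)) h3
  have h5 := (h.sg c.w (-i)).of_dvd h4 (by
    rw [natDegree_mul (mul_ne_zero (pow_ne_zero _ (X_sub_C_ne_zero _))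
      (pow_ne_zero _ (X_sub_C_ne_zero _))) (pow_ne_zero _ (X_sub_C_ne_zero _)),
      natDegree_mul (pow_ne_zero _ (X_sub_C_ne_zero _)) (pow_ne_zero _ (X_sub_C_ne_zero _))]
    simp)
  rw [← sg_zero c.w G, ← add_neg_cancel i, ← sg_sg c.hw, h5, map_zero]

theorem Ctx.coords {α β : Fin 3} {δ a b : ℕ} {g : V F}
    (hg : g ∈ EE c.w (N0 c.s α β δ a b 0 0)) (i : Fin 3) :
    X ^ a ∣ sg c.w (α - i) (g i) ∧ X ^ b ∣ sg c.w (β - i) (g i) ∧
      (X - C c.s) ^ δ ∣ sg c.w (-i) (g i) := by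
  refine ⟨?_, ?_, ?_⟩
  · simpa [rh_apply] using (hg (α - i)).2.1
  · simpa [rh_apply] using (hg (β - i)).1
  · simpa [rh_apply] using (hg (-i)).2.2

theorem Ctx.good {α β : Fin 3} (hne : α ≠ β) {ξ y : F} (hξ : c.φ ξ = ξ) (hy : y = 0 ∨ c.φ y ≠ y)
    {δ a b : ℕ} (hδ : δ ≤ 1) (hd : a + b + δ ≤ 2 * p) {g : V F}
    (hg : g ∈ EE c.w (N0 c.s α β δ a b (ξ * y) y)) (h : Lt (a + b + δ) g) : g = 0 := by
  refine c.pencil _ _ (c.AA_cj α β δ a b) (c.BB_cj hξ β δ a b) (by simp; ring) hd hy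
    (fun u hu h0 => funext fun i => ?_) h ((mem_iff hδ).mp hg)
  have h1 := (mem_iff (ξ := ξ) (y := 0) hδ).mpr (by simpa using h0)
  rw [mul_zero] at h1
  obtain ⟨a1, a2, a3⟩ := c.coords h1 i
  exact c.mono hne i a1 a2 a3 (hu i)

theorem X_succ_dvd {a : ℕ} {q : F[X]} (h : X ^ a ∣ q) (h0 : q.coeff a = 0) : X ^ (a + 1) ∣ q := by
  rw [X_pow_dvd_iff] at h ⊢
  intro d hd
  rcases (Nat.lt_succ_iff.mp hd).eq_or_lt with rfl | hd
  exacts [h0, h d hd]

/-- the two admissible orders of the coordinates -/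
def Ord (α β : Fin 3) : Prop := α = 1 ∧ β = 2 ∨ α = 2 ∧ β = 1

theorem Ord.ne {α β : Fin 3} (h : Ord α β) : α ≠ β := by
  rcases h with ⟨rfl, rfl⟩ | ⟨rfl, rfl⟩ <;> decide

theorem Ord.symm {α β : Fin 3} (h : Ord α β) : Ord β α := by
  rcases h with ⟨rfl, rfl⟩ | ⟨rfl, rfl⟩
  exacts [Or.inr ⟨rfl, rfl⟩, Or.inl ⟨rfl, rfl⟩]

theorem Ctx.lab0 {α β : Fin 3} (ho : Ord α β) {δ a b : ℕ} {g : V F}
    (hg : g ∈ EE c.w (N0 c.s α β δ a b 0 0)) (h : Lt (a + b + δ + 1) g)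
    (h1 : (g α).coeff a = 0) (h2 : (g β).coeff b = 0) {t : F} (ht : t ≠ 0)
    (h3 : cf α a (rh c.w 1 g) = t * cf α a (rh c.w 2 g) ∨
      cf β b (rh c.w 1 g) = t * cf β b (rh c.w 2 g)) : g = 0 := by
  have gα : g α = 0 := by
    obtain ⟨a1, a2, a3⟩ := c.coords hg α
    refine c.mono ho.ne α (X_succ_dvd a1 (by rwa [sub_self, sg_zero])) a2 a3 ((h α).mono (by omega))
  have gβ : g β = 0 := by
    obtain ⟨a1, a2, a3⟩ := c.coords hg β
    refine c.mono ho.ne β a1 (X_succ_dvd a2 (by rwa [sub_self, sg_zero])) a3 ((h β).mono (by omega))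
  have g12 : g 1 = 0 ∧ g 2 = 0 := by
    rcases ho with ⟨rfl, rfl⟩ | ⟨rfl, rfl⟩
    exacts [⟨gα, gβ⟩, ⟨gβ, gα⟩]
  have key : ∀ γ : Fin 3, γ = 1 ∨ γ = 2 → ∀ e, cf γ e (rh c.w 1 g) = t * cf γ e (rh c.w 2 g) →
      (sg c.w (γ - 0) (g 0)).coeff e = 0 := by
    rintro γ (rfl | rfl) e he
    · have e1 : (1 - 2 : Fin 3) = 2 := rfl
      simpa [cf_apply, rh_apply, e1, g12.2] using he
    · have e1 : (2 - 1 : Fin 3) = 1 := rfl
      simpa [cf_apply, rh_apply, e1, g12.1, ht] using he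
  have g0 : g 0 = 0 := by
    obtain ⟨a1, a2, a3⟩ := c.coords hg 0
    rcases h3 with h3 | h3
    · exact c.mono ho.ne 0 (X_succ_dvd a1 (key α (ho.imp And.left And.left) a h3)) a2 a3
        ((h 0).mono (by omega))
    · exact c.mono ho.ne 0 a1 (X_succ_dvd a2 (key β (ho.symm.imp And.left And.left) b h3)) a3
        ((h 0).mono (by omega))
  funext i
  fin_cases i
  exacts [g0, g12.1, g12.2]

/-- the first leading form -/
noncomputable def L1 (α β : Fin 3) (a : ℕ) (x : F) : V F →ₗ[F] F := cf α a + x • cf β a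

theorem L1_apply (α β : Fin 3) (a : ℕ) (x : F) (g : V F) :
    L1 α β a x g = (g α + C x * g β).coeff a := by
  simp [L1, cf_apply]

theorem Ctx.lab {α β : Fin 3} (ho : Ord α β) {ξ y : F} (hξ : c.φ ξ = ξ) (hy : y = 0 ∨ c.φ y ≠ y)
    {δ a b : ℕ} (hδ : δ ≤ 1) (hd : a + b + δ + 1 ≤ 2 * p) {g : V F}
    (hg : g ∈ EE c.w (N0 c.s α β δ a b (ξ * y) y)) (h : Lt (a + b + δ + 1) g)
    (h1 : L1 α β a (ξ * y) g = 0) (h2 : cf β b g = 0) {t : F} (ht : t ≠ 0) (ht' : c.φ t = t)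
    (h3 : L1 α β a (ξ * y) (rh c.w 1 g) = t * L1 α β a (ξ * y) (rh c.w 2 g) ∨
      cf β b (rh c.w 1 g) = t * cf β b (rh c.w 2 g)) : g = 0 := by
  have hR : ∀ (i : Fin 3) (e : ℕ) (u : V F),
      (cf i e).comp (rh c.w 1 - t • rh c.w 2) (c.cj u) =
        c.φ ((cf i e).comp (rh c.w 1 - t • rh c.w 2) u) := by
    intro i e u
    simp [c.rh_cj, c.cf_cj, ht']
  have main : ∀ A3 B3 : V F →ₗ[F] F, (∀ u, A3 (c.cj u) = c.φ (A3 u)) →
      (∀ u, B3 (c.cj u) = c.φ (B3 u)) → A3 g + y * B3 g = 0 →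
      (∀ u, A3 u = 0 → cf α a (rh c.w 1 u) = t * cf α a (rh c.w 2 u) ∨
        cf β b (rh c.w 1 u) = t * cf β b (rh c.w 2 u)) → g = 0 := by
    intro A3 B3 hA hB h3 h4
    refine c.pencil (Sum.elim (AA c.w c.s α β δ a b) ![cf α a, cf β b, A3])
      (Sum.elim (BB c.w c.s ξ β δ a b) ![ξ • cf β a, 0, B3]) ?_ ?_ (by simp; ring) hd hy
      (fun u hu h0 => ?_) h ?_
    · rintro (k | k) u
      · exact c.AA_cj α β δ a b k u
      · fin_cases k <;> simp [c.cf_cj, hA]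
    · rintro (k | k) u
      · exact c.BB_cj hξ β δ a b k u
      · fin_cases k <;> simp [c.cf_cj, hB, hξ]
    · have h1 := (mem_iff (ξ := ξ) (y := 0) hδ).mpr (by simpa using fun k => h0 (Sum.inl k))
      rw [mul_zero] at h1
      exact c.lab0 ho h1 hu (h0 (Sum.inr 0)) (h0 (Sum.inr 1)) ht (h4 u (h0 (Sum.inr 2)))
    · rintro (k | k)
      · exact (mem_iff hδ).mp hg k
      · fin_cases k
        · simp only [L1, LinearMap.add_apply, LinearMap.smul_apply, smul_eq_mul] at h1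
          simp
          linear_combination h1
        · simpa using h2
        · simpa using h3
  rcases h3 with h3 | h3
  · refine main ((cf α a).comp (rh c.w 1 - t • rh c.w 2))
      (ξ • (cf β a).comp (rh c.w 1 - t • rh c.w 2)) (hR α a) (fun u => ?_) ?_ fun u hu => Or.inl ?_
    · rw [LinearMap.smul_apply, LinearMap.smul_apply, hR, smul_eq_mul, smul_eq_mul, map_mul, hξ]
    · simp only [L1, LinearMap.add_apply, LinearMap.smul_apply, smul_eq_mul] at h3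
      simp
      linear_combination h3
    · simpa [sub_eq_zero] using hu
  · refine main ((cf β b).comp (rh c.w 1 - t • rh c.w 2)) 0 (hR β b) (by simp) ?_
      fun u hu => Or.inr ?_
    · simpa [sub_eq_zero] using h3
    · simpa [sub_eq_zero] using hu

end Pool.Agent.MP_c07293_an.H11
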