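import Pool.Agent.MP_c07293_an.H11.Child

/-! The generator of a modified module. -/

namespace Pool.Agent.MP_c07293_an.H11

open Polynomial

variable {F : Type} [Field F] {p : ℕ} (c : Ctx F p)

section n0
variable {s : F} {α β : Fin 3} {δ a b : ℕ} {x y : F} {g : V F}

theorem N0_up (hg : g ∈ N0 s α β δ a b x y) (h1 : L1 α β a x g = 0) (h2 : cf β b g = 0) :
    g ∈ N0 s α β δ (a + 1) (b + 1) x y :=
  ⟨X_succ_dvd hg.1 h2, X_succ_dvd hg.2.1 (by rwa [L1_apply] at h1), hg.2.2⟩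

theorem N0_mul (hg : g ∈ N0 s α β δ a b x y) {q : F[X]} (hq : q.eval 0 = 0) :
    q • g ∈ N0 s α β δ (a + 1) (b + 1) x y := by
  have h : X ∣ q := X_dvd_iff.mpr (by rwa [coeff_zero_eq_eval_zero])
  refine ⟨?_, ?_, ((N0 s α β δ a b x y).smul_mem q hg).2.2⟩
  · rw [pow_succ']; exact mul_dvd_mul h hg.1
  · rw [pow_succ']
    convert mul_dvd_mul h hg.2.1 using 1
    simp only [Pi.smul_apply, smul_eq_mul]; ring

theorem cop {q : F[X]} {s : F} (h : q.eval s ≠ 0) (k : ℕ) : IsCoprime ((X - C s) ^ k) q :=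
  ((irreducible_X_sub_C s).coprime_iff_not_dvd.mpr fun hd => h (dvd_iff_isRoot.mp hd)).pow_left

theorem cop0 {q : F[X]} (h : q.eval 0 ≠ 0) (k : ℕ) : IsCoprime (X ^ k) q := by
  simpa using cop h k

theorem N0_cancel {q : F[X]} (hg : q • g ∈ N0 s α β δ a b x y) (h0 : q.eval 0 ≠ 0)
    (hs : q.eval s ≠ 0) : g ∈ N0 s α β δ a b x y := by
  obtain ⟨g1, g2, g3⟩ := hg
  simp only [Pi.smul_apply, smul_eq_mul] at g1 g2 g3
  refine ⟨(cop0 h0 b).dvd_of_dvd_mul_left g1, (cop0 h0 a).dvd_of_dvd_mul_left ?_,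
    (cop hs δ).dvd_of_dvd_mul_left ?_⟩
  · convert g2 using 1; ring
  · convert g3 using 1; ring

end n0

theorem Ctx.rigid {α β : Fin 3} (ho : Ord α β) {ξ y : F} (hξ : c.φ ξ = ξ) (hy : y = 0 ∨ c.φ y ≠ y)
    {δ a b : ℕ} (hδ : δ ≤ 1) (hd : a + b + δ ≤ 2 * p) {g : V F}
    (hg : g ∈ EE c.w (N0 c.s α β δ a b (ξ * y) y)) (h : Lt (a + b + δ + 1) g)
    (h1 : L1 α β a (ξ * y) g = 0) (h2 : cf β b g = 0) (h3 : vl 0 0 g = 0) : g = 0 := by
  obtain ⟨g1, g2, g3⟩ := N0_up (EE_self hg) h1 h2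
  have hβ : X ∣ g β := (dvd_pow_self X (Nat.succ_ne_zero b)).trans g1
  have hα : X ∣ g α :=
    (dvd_add_left (hβ.mul_left _)).mp ((dvd_pow_self X (Nat.succ_ne_zero a)).trans g2)
  have h0 : X ∣ g 0 := X_dvd_iff.mpr (by rwa [coeff_zero_eq_eval_zero])
  have hall : ∀ i, X ∣ g i := by
    intro i
    rcases ho with ⟨rfl, rfl⟩ | ⟨rfl, rfl⟩ <;> fin_cases i <;> assumption
  choose u hu using hall
  have e : g = (X : F[X]) • u := funext hu
  have s0 : c.s ≠ 0 := c.hs 0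
  have hu0 : u = 0 := by
    refine c.good ho.ne hξ hy hδ hd (fun r => ?_) fun i n hn => ?_
    · by_cases hr : r = 0
      · subst hr
        rw [rh_zero]
        rw [hu β, pow_succ'] at g1
        refine ⟨(mul_dvd_mul_iff_left X_ne_zero).mp g1, (mul_dvd_mul_iff_left X_ne_zero).mp ?_,
          (cop (q := X) (by simpa using s0) δ).dvd_of_dvd_mul_left ?_⟩
        · rw [hu α, hu β, pow_succ'] at g2
          convert g2 using 1; ring
        · rw [hu 0, hu 1] at g3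
          convert g3 using 1; ring
      · have h4 := hg r
        rw [e, rh_smul] at h4
        refine N0_cancel h4 ?_ ?_
        · rw [eval_sg, eval_X, mul_zero, zero_add]
          exact (P_inj c.hw).ne hr
        · rw [eval_sg, eval_X]
          intro h5
          have h6 := P_add c.hw (-r) r
          rw [neg_add_cancel] at h6
          have h7 : P c.w 0 = 0 := rfl
          refine c.hs (-r) (mul_left_cancel₀ (W_ne c.hw r) ?_)
          linear_combination h5 - h7 + h6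
    · have := h i (n + 1) (by omega)
      rwa [hu i, coeff_X_mul] at this
  rw [e, hu0, smul_zero]

/-- the quadratic multipliers -/
noncomputable def qq (w : F) (j : Fin 3) : F[X] := (X - C (P w (1 - j))) * (X - C (P w (2 - j)))

theorem qq_zero (w : F) {r j : Fin 3} (h : r + j ≠ 0) : (sg w r (qq w j)).eval 0 = 0 := by
  have : r = 1 - j ∨ r = 2 - j := by revert r j; decide
  rw [eval_sg, mul_zero, zero_add, qq]
  rcases this with rfl | rfl <;> simp

theorem qq_ne {w : F} (hw : w ^ 2 + w + 1 = 0) (j : Fin 3) : (sg w (-j) (qq w j)).eval 0 ≠ 0 := by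
  have h1 : -j ≠ 1 - j := by revert j; decide
  have h2 : -j ≠ 2 - j := by revert j; decide
  rw [eval_sg, mul_zero, zero_add, qq]
  simp [sub_eq_zero, (P_inj hw).ne h1, (P_inj hw).ne h2]

theorem qq_pl (w : F) (j : Fin 3) : pl 2 (qq w j - X ^ 2) := by
  have : qq w j - X ^ 2 =
      C (-(P w (1 - j) + P w (2 - j))) * X + C (P w (1 - j) * P w (2 - j)) := by
    simp only [qq, map_neg, map_add, map_mul]; ring
  rw [this]
  exact pl_succ.mpr natDegree_linear_le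

/-- admissible labels -/
def Ctx.Lab (x : Fin 3 → F) : Prop := ∀ t, t ≠ 0 → c.φ t = t → x 1 ≠ t * x 2

theorem Ph_cst (w : F) (v : V F) (k : Fin 3 → F) :
    Ph w v (cst k) = k 0 • v + k 1 • rh w 1 v + k 2 • rh w 2 v := by
  rw [Ph_def, Fin.sum_univ_three, rh_zero]
  funext i
  simp only [cst, Pi.add_apply, Pi.smul_apply, smul_eq_mul, smul_eq_C_mul]

theorem Ctx.child {α β : Fin 3} (ho : Ord α β) {ξ y : F} (hξ : c.φ ξ = ξ)
    (hy : y = 0 ∨ c.φ y ≠ y) {δ a b : ℕ} (hδ : δ ≤ 1) (hd : a + b + δ + 2 ≤ 2 * p) :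
    ∃ ψ : V F, Top c.w (a + b + δ) ψ ∧ ψ ∈ EE c.w (N0 c.s α β δ a b (ξ * y) y) ∧
      (∀ g ∈ EE c.w (N0 c.s α β δ a b (ξ * y) y), ∃ u, g = Ph c.w ψ u) ∧
      L1 α β a (ξ * y) ψ = 0 ∧ cf β b ψ = 0 ∧
      L1 α β a (ξ * y) (rh c.w 1 ψ) * cf β b (rh c.w 2 ψ) ≠
        L1 α β a (ξ * y) (rh c.w 2 ψ) * cf β b (rh c.w 1 ψ) ∧
      c.Lab (fun j => L1 α β a (ξ * y) (rh c.w j ψ)) ∧ c.Lab fun j => cf β b (rh c.w j ψ) := by
  obtain ⟨ψ, h0, hl, hA⟩ := exists_sol (d := a + b + δ + 1)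
    (Sum.elim (fun k => AA c.w c.s α β δ a b k + y • BB c.w c.s ξ β δ a b k)
      ![L1 α β a (ξ * y), cf β b]) (by simp; omega)
  have hψ : ψ ∈ EE c.w (N0 c.s α β δ a b (ξ * y) y) :=
    (mem_iff hδ).mpr fun k => by simpa using hA (Sum.inl k)
  have h1 : L1 α β a (ξ * y) ψ = 0 := hA (Sum.inr 0)
  have h2 : cf β b ψ = 0 := hA (Sum.inr 1)
  have h3 : vl 0 0 ψ ≠ 0 := fun h => h0 (c.rigid ho hξ hy hδ (by omega) hψ hl h1 h2 h)
  have hP : ∀ u, Ph c.w ψ u ∈ EE c.w (N0 c.s α β δ a b (ξ * y) y) := fun u => by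
    rw [Ph_def]
    exact Submodule.sum_mem _ fun j _ => Submodule.smul_mem _ _ (EE_rh c.hw hψ j)
  have ind : ∀ k : Fin 3 → F, Ph c.w ψ (cst k) = 0 → k = 0 := by
    intro k hk
    have hG : Ph c.w ψ (fun j => C (k j) * qq c.w j) = 0 := by
      refine c.good (a := a + 1) (b := b + 1) ho.ne hξ hy hδ (by omega) (fun r => ?_) ?_
      · rw [Ph_def, map_sum]
        refine Submodule.sum_mem _ fun j _ => ?_
        rw [rh_smul, rh_rh c.hw]
        by_cases hr : r + j = 0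
        · rw [hr, rh_zero]
          exact Submodule.smul_mem _ _ (N0_up (EE_self hψ) h1 h2)
        · exact N0_mul (hψ _) (by rw [map_mul, eval_mul, qq_zero _ hr, mul_zero])
      · have e : (fun j => C (k j) * qq c.w j) =
            (X ^ 2 : F[X]) • cst k + fun j => C (k j) * (qq c.w j - X ^ 2) := by
          funext j; simp only [cst, Pi.add_apply, Pi.smul_apply, smul_eq_mul]; ring
        rw [e, map_add, map_smul, hk, smul_zero, zero_add,
          show a + 1 + (b + 1) + δ = 2 + (a + b + δ) by ring]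
        refine Lt.Ph (fun j => ?_) hl _
        rw [mul_comm]
        exact (qq_pl c.w j).mul (pl_C _)
    funext j
    have h4 := congrArg (fun g => vl 0 0 (rh c.w (-j) g)) hG
    simp only [map_zero] at h4
    rw [Ph_def, map_sum, map_sum, Finset.sum_eq_single j] at h4
    · rw [rh_smul, rh_rh c.hw, neg_add_cancel, rh_zero, vl_apply, Pi.smul_apply, smul_eq_mul,
        eval_mul, map_mul, eval_mul, sg_C, eval_C] at h4
      exact ((mul_eq_zero.mp ((mul_eq_zero.mp h4).resolve_right h3)).resolve_right (qq_ne c.hw j))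
    · intro l _ hl
      rw [rh_smul, vl_apply, Pi.smul_apply, smul_eq_mul, eval_mul, map_mul, eval_mul,
        qq_zero _ fun h => hl (neg_add_eq_zero.mp h).symm, mul_zero, zero_mul]
    · simp
  have hT : Top c.w (a + b + δ) ψ :=
    top_of hl fun k hk => ind k (c.good ho.ne hξ hy hδ (by omega) (hP _) hk)
  refine ⟨ψ, hT, hψ, hT.surj _ (EE_rh c.hw hψ) fun g hg => c.good ho.ne hξ hy hδ (by omega) hg,
    h1, h2, fun hdet => ?_, fun t ht ht' e => h0 ?_, fun t ht ht' e => h0 ?_⟩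
  · obtain ⟨k1, k2, hk, e1, e2⟩ : ∃ k1 k2 : F, (k1 ≠ 0 ∨ k2 ≠ 0) ∧
        k1 * L1 α β a (ξ * y) (rh c.w 1 ψ) + k2 * L1 α β a (ξ * y) (rh c.w 2 ψ) = 0 ∧
        k1 * cf β b (rh c.w 1 ψ) + k2 * cf β b (rh c.w 2 ψ) = 0 := by
      generalize L1 α β a (ξ * y) (rh c.w 1 ψ) = x1 at hdet
      generalize L1 α β a (ξ * y) (rh c.w 2 ψ) = x2 at hdet
      generalize cf β b (rh c.w 1 ψ) = y1 at hdet
      generalize cf β b (rh c.w 2 ψ) = y2 at hdet
      by_cases hx : x2 ≠ 0 ∨ -x1 ≠ 0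
      · exact ⟨x2, -x1, hx, by ring, by linear_combination -hdet⟩
      by_cases hz : y2 ≠ 0 ∨ -y1 ≠ 0
      · exact ⟨y2, -y1, hz, by linear_combination hdet, by ring⟩
      push Not at hx hz
      exact ⟨1, 0, Or.inl one_ne_zero, by simpa using hx.2, by simpa using hz.2⟩
    set k0 := -(k1 * vl 0 0 (rh c.w 1 ψ) + k2 * vl 0 0 (rh c.w 2 ψ)) / vl 0 0 ψ with hk0
    have h5 := ind ![k0, k1, k2] (c.rigid ho hξ hy hδ (by omega) (hP _)
      (by rw [add_comm]; exact (Lt_cst _).Ph hl _) ?_ ?_ ?_)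
    · rcases hk with hk | hk
      exacts [hk (congrFun h5 1), hk (congrFun h5 2)]
    · rw [Ph_cst]; simp [h1]; linear_combination e1
    · rw [Ph_cst]; simp [h2]; linear_combination e2
    · rw [Ph_cst]; simp [hk0]; field_simp; ring
  · exact c.lab ho hξ hy hδ (by omega) hψ hl h1 h2 ht ht' (Or.inl e)
  · exact c.lab ho hξ hy hδ (by omega) hψ hl h1 h2 ht ht' (Or.inr e)

end Pool.Agent.MP_c07293_an.H11
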