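import Pool.Agent.MP_c07293_an.H82.Mahler

/-! The compactness criterion in rank three and valuations of values of polynomials. -/

namespace Pool.Agent.MP_c07293_an.H11

open Polynomial WithZero Matrix Pool.Agent.MP_c07293_an.H82

variable {F : Type} [Field F]

theorem into_CC3 (g : GL (Fin 3) (LaurentSeries F))
    (hmin : ∀ x : Fin 3 → F[X], x ≠ 0 →
      vv g.val.det ≤ (∏ i, vv ((g.val *ᵥ fun j => emb F (x j)) i)) * exp 2) :
    ∃ h ∈ CC F 3 6, (h : GL (Fin 3) (LaurentSeries F) ⧸ Gam F 3) = g := by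
  have hg : g.val.det ≠ 0 := g.det_ne_zero
  have hg' : vv g.val.det ≠ 0 := by simpa using hg
  obtain ⟨γ, d, hγ, hb, hs⟩ := reduce g.val hg
  set D := log (vv g.val.det) with hD
  rw [← exp_log hg', exp_le_exp, ← hD] at hs
  have h1 : ∀ j, D ≤ 3 * d j + 2 := by
    intro j
    have := hmin (fun i => γ i j) fun h0 =>
      hγ.ne_zero (det_eq_zero_of_column_eq_zero j fun i => congrFun h0 i)
    rw [← exp_log hg', ← hD] at this
    rw [← exp_le_exp]
    refine this.trans ?_
    have e : (exp (3 * d j) : ℤᵐ⁰) = ∏ _i : Fin 3, exp (d j) := by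
      rw [← exp_sum']; simp
    rw [exp_add, e]
    exact mul_le_mul' (Finset.prod_le_prod' fun i _ => hb i j) le_rfl
  set c : (LaurentSeries F)ˣ := Units.mk0 (uu F (-(D / 3))) (uu_ne _) with hc
  set h : GL (Fin 3) (LaurentSeries F) := g * (GeneralLinearGroup.map (emb F)
    (GeneralLinearGroup.mk'' γ hγ) * GeneralLinearGroup.scalar (Fin 3) c) with hh
  have hv : h.val = uu F (-(D / 3)) • (g.val * γ.map (emb F)) := by
    rw [hh, ← mul_assoc, Units.val_mul, Units.val_mul, smul_eq_mul_diagonal]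
    rfl
  have h2 : ∀ i j, vv (h.val i j) ≤ exp 2 := by
    intro i j
    rw [hv, Matrix.smul_apply, smul_eq_mul, map_mul, vv_uu]
    refine (mul_le_mul' le_rfl (hb i j)).trans ?_
    rw [← exp_add, exp_le_exp]
    rw [Fin.sum_univ_three] at hs
    have a0 := h1 0
    have a1 := h1 1
    have a2 := h1 2
    fin_cases j <;> simp only [Fin.zero_eta, Fin.mk_one, Fin.reduceFinMk, Fin.isValue] <;> omega
  have h3 : 1 ≤ vv h.val.det := by
    rw [hv, det_smul, det_mul, map_mul, map_mul, map_pow, vv_uu, ← RingHom.mapMatrix_apply,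
      ← RingHom.map_det, vv_unit hγ, mul_one, ← exp_log hg', ← hD, ← WithZero.exp_nsmul, ← exp_add,
      ← exp_zero, exp_le_exp]
    simp only [Fintype.card_fin, nsmul_eq_mul, Nat.cast_ofNat]
    omega
  refine ⟨h, ⟨fun i j => (h2 i j).trans (exp_le_exp.mpr (by norm_num)), fun i j => ?_⟩,
    QuotientGroup.mk_mul_of_mem _
      (Subgroup.mul_mem _ (Subgroup.mem_sup_right ⟨_, rfl⟩) (scalar_mem c))⟩
  rw [GeneralLinearGroup.coe_inv, inv_def, Matrix.smul_apply, smul_eq_mul, map_mul,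
    Ring.inverse_eq_inv', map_inv₀, adjugate_apply]
  have h4 := det_le (h.val.updateRow j (Pi.single i 1)) (fun _ => 2) fun a b => by
    rw [updateRow_apply]
    split_ifs
    · rw [Pi.single_apply]
      split_ifs
      · rw [map_one, ← exp_zero, exp_le_exp]; norm_num
      · simp
    · exact h2 a b
  calc _ ≤ 1 * exp (∑ _j : Fin 3, (2 : ℤ)) := mul_le_mul' (inv_le_one_of_one_le₀ h3) h4
    _ = _ := by simp

theorem vv_C_le (a : F) : vv (HahnSeries.C a : LaurentSeries F) ≤ 1 := H82.coe_C a ▸ vv_coe _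

theorem exp_neg_lt : (exp (-1 : ℤ) : ℤᵐ⁰) < 1 := by rw [← exp_zero, exp_lt_exp]; norm_num

theorem ev_le_one {t : LaurentSeries F} (ht : vv t ≤ 1) (p : F[X]) : vv (ev t p) ≤ 1 := by
  induction p using Polynomial.induction_on with
  | C a => rw [ev_C]; exact vv_C_le a
  | add p q hp hq => rw [map_add]; exact Valuation.map_add_le _ hp hq
  | monomial n a h => rw [pow_succ, ← mul_assoc, map_mul, map_mul vv, ev_X]; exact mul_le_one' h ht

theorem val_ev {t : LaurentSeries F} {r : F} (ht : vv (t - HahnSeries.C r) = exp (-1)) {G : F[X]}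
    (hG : G ≠ 0) : vv (ev t G) = exp (-(G.rootMultiplicity r : ℤ)) := by
  obtain ⟨q, hq, hn⟩ := exists_eq_pow_rootMultiplicity_mul_and_not_dvd G hG r
  obtain ⟨q', hq'⟩ := X_sub_C_dvd_sub_C_eval (a := r) (p := q)
  have h0 : eval r q ≠ 0 := fun h => hn (dvd_iff_isRoot.mpr h)
  have h1 : vv t ≤ 1 := by
    rw [← sub_add_cancel t (HahnSeries.C r)]
    exact Valuation.map_add_le _ (ht.trans_le exp_neg_lt.le) (vv_C_le r)
  have h2 : vv (ev t q) = 1 := by
    rw [eq_add_of_sub_eq' hq', map_add, ev_C, Valuation.map_add_eq_of_lt_left, vv_C h0]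
    rw [vv_C h0, map_mul, map_mul, map_sub, ev_X, ev_C, ht]
    exact (mul_le_mul' le_rfl (ev_le_one h1 q')).trans_lt (by rw [mul_one]; exact exp_neg_lt)
  generalize G.rootMultiplicity r = m at hq
  rw [hq, map_mul, map_mul, h2, map_pow, map_pow, map_sub, ev_X, ev_C, ht, mul_one,
    ← WithZero.exp_nsmul]
  simp

theorem xu : uu F (-1) * uu F 1 = 1 := by rw [← uu_add]; exact uu_zero

end Pool.Agent.MP_c07293_an.H11
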