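import Pool.Agent.MP_c07293_an.H11.Outer

/-! Construction of the data from the order of the field. -/

namespace Pool.Agent.MP_c07293_an.H11

open Polynomial Pool.Agent.MP_c07293_an.H82

theorem main (p r m : ℕ) (hp : p.Prime) (hm : m.Prime) (h6 : 6 * p < m) (h4 : 4 < p ^ r)
    (h3 : p ^ r % 3 ≠ 2) (F : Type) [Field F] [Finite F] (hF : Nat.card F = (p ^ r) ^ m) :
    ∃ Ω : Set (GL (Fin 3) (LaurentSeries F) ⧸ Gam F 3), IsCompact Ω ∧
      {O | (∃ x, O = orb x) ∧ IsCompact O ∧ O ⊆ Ω}.Infinite := by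
  classical
  have := Fintype.ofFinite F
  have := Fact.mk hp
  rw [Nat.card_eq_fintype_card] at hF
  have hc : CharP F p := charP_of_card_eq_prime_pow (f := r * m) (by rw [hF, pow_mul])
  set φ : F →+* F := iterateFrobenius F p r with hφ
  have φx : ∀ x, φ x = x ^ p ^ r := fun _ => rfl
  generalize hq : p ^ r = q at h4 h3 hF φx
  have per : ∀ n x, φ^[n] x = x ^ q ^ n := by
    intro n x
    induction n with
    | zero => simp
    | succ n ih => rw [Function.iterate_succ_apply', ih, φx, ← pow_mul, pow_succ]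
  obtain ⟨g, hg⟩ := IsCyclic.exists_ofOrder_eq_natCard (α := Fˣ)
  rw [Nat.card_eq_fintype_card, Fintype.card_units, hF] at hg
  have hlt : q < q ^ m := by
    conv_lhs => rw [← pow_one q]
    exact Nat.pow_lt_pow_right (by omega) hm.one_lt
  have hμ : φ (g : F) ≠ g := by
    intro h
    rw [φx] at h
    have h1 : g ^ (q - 1) = 1 := by
      apply mul_right_cancel (b := g)
      rw [← pow_succ, Nat.sub_add_cancel (by omega), one_mul]
      exact Units.ext (by simpa using h)
    have := Nat.le_of_dvd (by omega) (orderOf_dvd_of_pow_eq_one h1)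
    omega
  have hd : q - 1 ∣ orderOf g := by
    rw [hg]
    simpa using Nat.sub_dvd_pow_sub_pow q 1 m
  set ζ := g ^ (orderOf g / (q - 1)) with hζ
  have hζo : orderOf ζ = q - 1 := orderOf_pow_orderOf_div (by omega) hd
  have fix : ∀ i, φ ((ζ ^ i : Fˣ) : F) = (ζ ^ i : Fˣ) := by
    intro i
    have h1 : ζ ^ q = ζ := by
      conv_lhs => rw [← Nat.sub_add_cancel (show 1 ≤ q by omega), pow_succ, ← hζo,
        pow_orderOf_eq_one, one_mul]
    rw [φx, ← Units.val_pow_eq_pow_val, ← pow_mul, mul_comm, pow_mul, h1]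
  obtain ⟨w, hw, φw⟩ : ∃ w : F, w ^ 2 + w + 1 = 0 ∧ φ w = w := by
    by_cases h0 : q % 3 = 0
    · have h1 : 3 ∣ p ^ r := hq ▸ Nat.dvd_of_mod_eq_zero h0
      have h2 : 3 = p :=
        (Nat.prime_dvd_prime_iff_eq Nat.prime_three hp).mp (Nat.prime_three.dvd_of_dvd_pow h1)
      subst h2
      refine ⟨1, ?_, map_one _⟩
      have := CharP.cast_eq_zero F 3
      rw [Nat.cast_ofNat] at this
      linear_combination this
    · have h1 : 3 ∣ orderOf ζ := by omega
      have h2 := orderOf_pow_orderOf_div (by omega) h1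
      refine ⟨(ζ ^ (orderOf ζ / 3) : Fˣ), ?_, fix _⟩
      generalize ζ ^ (orderOf ζ / 3) = u at h2
      have h5 : (u : F) ^ 3 = 1 := by
        rw [← Units.val_pow_eq_pow_val, ← h2, pow_orderOf_eq_one, Units.val_one]
      have h7 : (u : F) - 1 ≠ 0 := fun h => by
        rw [Units.ext (sub_eq_zero.mp h : (u : F) = (1 : Fˣ)), orderOf_one] at h2
        omega
      exact mul_left_cancel₀ h7 (by linear_combination h5)
  obtain ⟨s, hs1, hs2⟩ := Finset.exists_mem_notMem_of_card_lt_card
    (s := ({1, w + 1, (1 - w)⁻¹} : Finset F))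
    (t := (Finset.range (q - 1)).image fun i => ((ζ ^ i : Fˣ) : F)) (by
      rw [Finset.card_image_of_injOn, Finset.card_range]
      · exact Finset.card_le_three.trans_lt (by omega)
      · intro a ha b hb e
        rw [Finset.coe_range, ← hζo] at ha hb
        exact pow_injOn_Iio_orderOf ha hb (Units.ext e))
  obtain ⟨i, -, hi⟩ := Finset.mem_image.mp hs1
  simp only [Finset.mem_insert, Finset.mem_singleton, not_or] at hs2
  refine Ctx.main (p := p) ⟨w, s, hw, φ, m, hm, h6, fun x => ?_, φw, hi ▸ fix i, fun j => ?_⟩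
    (fun h => hs2.2.2 ?_) hμ
  · rw [per, ← hF, FiniteField.pow_card]
  · fin_cases j
    exacts [hi ▸ Units.ne_zero _, hs2.1, hs2.2.1]
  · exact eq_inv_of_mul_eq_one_left (by linear_combination -h)

end Pool.Agent.MP_c07293_an.H11
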