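import Pool.Agent.MP_c07293_an.H11.Step
import Pool.Agent.MP_c07293_an.H11.Lau

/-! The lattices and their orbits. -/

namespace Pool.Agent.MP_c07293_an.H11

open Polynomial WithZero Matrix Pool.Agent.MP_c07293_an.H82

variable {F : Type} [Field F]

theorem hh_eq (w : F) : hh w = X * (X - 1) * (X - C (w + 1)) := by
  simp [hh, H11.DD, Fin.prod_univ_three, P]

theorem hh_deg (w : F) : (hh w).natDegree = 3 := DD_deg _ _

theorem exists_root {w : F} (hw : w ^ 2 + w + 1 = 0) :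
    ∃ t : LaurentSeries F, vv t = exp (-1) ∧ ev t (hh w) = uu F (-1) := by
  have h1 : w + 1 ≠ 0 := (P_inj hw).ne (show (2 : Fin 3) ≠ 0 by decide)
  obtain ⟨f, hf'⟩ := (LaurentSeries.val_le_one_iff_eq_coe F (uu F (-1))).mp
    ((vv_uu (-1)).trans_le exp_neg_lt.le)
  have hf : PowerSeries.constantCoeff f = 0 := (vv_coe_lt f).mp (by rw [hf', vv_uu])
  have hm : (X * (X - 1) * (X - C (PowerSeries.C (w + 1))) - C f : (PowerSeries F)[X]).Monic := by
    monicity!
  obtain ⟨T, hT, hT1⟩ := HenselianRing.is_henselian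
    (I := Ideal.span {(PowerSeries.X : PowerSeries F)}) _ hm 0 (by
      rw [Ideal.mem_span_singleton, PowerSeries.X_dvd_iff]
      simp [hf]) (by
      refine IsUnit.map _ ?_
      have : IsUnit (PowerSeries.C (w + 1)) := (IsUnit.mk0 _ h1).map _
      convert this using 1
      simp [derivative_mul])
  have h2 : (T : LaurentSeries F) * ((T : LaurentSeries F) - 1) *
      ((T : LaurentSeries F) - HahnSeries.C (w + 1)) = uu F (-1) := by
    have h2 : T * (T - 1) * (T - PowerSeries.C (w + 1)) = f := by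
      have := hT.eq_zero
      simp only [eval_sub, eval_mul, eval_X, eval_C, eval_one] at this
      exact sub_eq_zero.mp this
    have := congrArg (HahnSeries.ofPowerSeries ℤ F) h2
    rwa [map_mul, map_mul, map_sub, map_sub, map_one, HahnSeries.ofPowerSeries_C, hf'] at this
  rw [sub_zero, Ideal.mem_span_singleton, PowerSeries.X_dvd_iff, ← vv_coe_lt] at hT1
  have h3 : vv (T : LaurentSeries F) < 1 := hT1.trans_lt exp_neg_lt
  refine ⟨T, ?_, by rw [hh_eq, ← h2]; simp only [map_mul, map_sub, ev_X, ev_C, map_one]⟩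
  have := congrArg vv h2
  rwa [map_mul, map_mul, Valuation.map_sub_eq_of_lt_right _ (by rwa [map_one]),
    Valuation.map_sub_eq_of_lt_right _ (by rwa [vv_C h1]), map_one, vv_C h1, mul_one, mul_one,
    vv_uu] at this

/-- clearing denominators -/
noncomputable def cl (w : F) (n : ℕ) (z : F[X]) : F[X] :=
  ∑ i ∈ Finset.range (n + 1), C (z.coeff i) * hh w ^ (n - i)

theorem cl_pl (w : F) (n : ℕ) (z : F[X]) : pl (3 * n + 1) (cl w n z) :=
  pl_sum _ _ fun i _ => pl_succ.mpr ((natDegree_C_mul_le _ _).trans (by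
    rw [natDegree_pow, hh_deg]; omega))

theorem sg_cl {w : F} (hw : w ^ 2 + w + 1 = 0) (r : Fin 3) (n : ℕ) (z : F[X]) :
    sg w r (cl w n z) = cl w n z := by
  simp only [cl, map_sum, map_mul, map_pow, sg_C, sg_hh hw]

theorem cl_map {A : Type} [CommRing A] (ψ : F[X] →+* A) {w : F} {u : A} (h : ψ (hh w) * u = 1)
    {n : ℕ} {z : F[X]} (hz : z.natDegree ≤ n) :
    ψ (cl w n z) = ψ (hh w) ^ n * z.eval₂ (ψ.comp C) u := by
  rw [eval₂_eq_sum_range' _ (Nat.lt_succ_of_le hz), cl, map_sum, Finset.mul_sum]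
  refine Finset.sum_congr rfl fun i hi => ?_
  obtain ⟨j, rfl⟩ := Nat.exists_eq_add_of_le (Nat.lt_succ_iff.mp (Finset.mem_range.mp hi))
  have h1 : ψ (hh w) ^ i * u ^ i = 1 := by rw [← mul_pow, h, one_pow]
  rw [map_mul, map_pow, Nat.add_sub_cancel_left, pow_add, RingHom.comp_apply]
  linear_combination (-(ψ (C (z.coeff i)) * ψ (hh w) ^ j)) * h1

/-- the polynomial attached to a vector -/
noncomputable def ff (w : F) (n : ℕ) (z0 z1 z2 : F[X]) : F[X] :=
  cl w n z0 + cl w n z1 * X + cl w n z2 * X ^ 2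

variable {p : ℕ} (c : Ctx F p)

/-- the finite place -/
noncomputable def Ctx.a : F := ((hh c.w).eval c.s)⁻¹

theorem Ctx.hh_s : (hh c.w).eval c.s ≠ 0 := by
  have h0 : c.s ≠ 0 := c.hs 0
  have h1 : c.s ≠ 1 := c.hs 1
  have h2 : c.s ≠ c.w + 1 := c.hs 2
  simp [hh_eq, sub_eq_zero, h0, h1]
  exact h2

theorem Ctx.level (hs : c.w * c.s + 1 ≠ c.s) {N : ℕ} (hN : 2 ≤ N) {μ : F} (h0 : μ ≠ 0)
    (h1 : μ ≠ 1) : ∃ f1 f2 : F[X], f2.eval c.a ≠ f1.eval c.a ^ 2 ∧ ∀ (x0 x1 x2 : F[X]) (n : ℕ),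
      ((X - C c.a) ^ N * x0 - f1 * x1 - f2 * x2).natDegree ≤ n → x1.natDegree ≤ n →
      x2.natDegree ≤ n → (X - C c.s) ^ N ∣
        ff c.w n ((X - C c.a) ^ N * x0 - f1 * x1 - f2 * x2) x1 x2 -
          C μ * sg c.w 1 (ff c.w n ((X - C c.a) ^ N * x0 - f1 * x1 - f2 * x2) x1 x2) := by
  obtain ⟨r, U, hU⟩ := cop c.hh_s N
  obtain ⟨M, rfl⟩ : ∃ M, N = M + 2 := ⟨N - 2, by omega⟩
  have ha : (hh c.w).eval c.s * c.a = 1 := mul_inv_cancel₀ c.hh_s
  have hUa : U.eval c.s = c.a := by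
    have := congrArg (eval c.s) hU
    simp only [eval_add, eval_mul, eval_pow, eval_sub, eval_X, eval_C, sub_self, eval_one,
      zero_pow (Nat.succ_ne_zero _), mul_zero, zero_add] at this
    exact mul_left_cancel₀ c.hh_s (by rw [ha, mul_comm, this])
  obtain ⟨υ, hυ⟩ : X - C c.s ∣ U - C c.a := dvd_iff_isRoot.mpr (by simp [hUa])
  have hυ0 : υ.eval c.s ≠ 0 := by
    intro h
    set q : F[X] := X ^ 2 + (C c.s - C c.w - 2) * X +
      (C c.s ^ 2 - (C c.w + 2) * C c.s + (C c.w + 1)) with hq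
    have e1 : hh c.w = C ((hh c.w).eval c.s) + (X - C c.s) * q := by
      rw [hh_eq, hq]
      simp only [eval_mul, eval_sub, eval_add, eval_X, eval_C, eval_one, map_mul, map_sub, map_add,
        map_one]
      ring
    have e2 : hh c.w * υ = -(C c.a * q) - r * (X - C c.s) ^ (M + 1) := by
      apply mul_left_cancel₀ (X_sub_C_ne_zero c.s)
      have e3 : (C ((hh c.w).eval c.s) : F[X]) * C c.a = 1 := by rw [← map_mul, ha, map_one]
      linear_combination hU - hh c.w * hυ - C c.a * e1 - e3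
    have e3 := congrArg (eval c.s) e2
    simp only [hq, eval_add, eval_mul, eval_pow, eval_sub, eval_neg, eval_X, eval_C, sub_self, h,
      zero_pow (Nat.succ_ne_zero _), mul_zero, eval_ofNat, eval_one] at e3
    have a0 : c.a ≠ 0 := right_ne_zero_of_mul (ha ▸ one_ne_zero)
    have w1 : c.w + 1 ≠ 0 := (P_inj c.hw).ne (show (2 : Fin 3) ≠ 0 by decide)
    refine mul_ne_zero a0 (mul_ne_zero w1 (pow_ne_zero 2 (sub_ne_zero.mpr hs))) ?_
    linear_combination e3 + c.a * (c.s ^ 2 * (c.w - 2) + 2 * c.s) * c.hw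
  have surj : ∀ (j : ℕ) (q : F[X]), ∃ g : F[X], (X - C c.s) ^ j ∣ q - g.comp U := by
    intro j q
    induction j with
    | zero => exact ⟨0, by simp⟩
    | succ j ih =>
      obtain ⟨g, R, hR⟩ := ih
      refine ⟨g + C (R.eval c.s / υ.eval c.s ^ j) * (X - C c.a) ^ j, ?_⟩
      have e : q - (g + C (R.eval c.s / υ.eval c.s ^ j) * (X - C c.a) ^ j).comp U =
          (X - C c.s) ^ j * (R - C (R.eval c.s / υ.eval c.s ^ j) * υ ^ j) := by
        simp only [add_comp, mul_comp, pow_comp, sub_comp, X_comp, C_comp, hυ, mul_pow]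
        linear_combination hR
      rw [e, pow_succ]
      refine mul_dvd_mul_left _ (dvd_iff_isRoot.mpr ?_)
      simp only [IsRoot.def, eval_sub, eval_mul, eval_pow, eval_C]
      field_simp
      ring
  have hμ : (1 - μ) ≠ 0 := sub_ne_zero.mpr h1.symm
  obtain ⟨f1, g1⟩ := surj (M + 2) (C (1 - μ)⁻¹ * (X - C μ * sg c.w 1 X))
  obtain ⟨f2, g2⟩ := surj (M + 2) (C (1 - μ)⁻¹ * (X ^ 2 - C μ * sg c.w 1 X ^ 2))
  refine ⟨f1, f2, fun h => ?_, fun x0 x1 x2 n d0 d1 d2 => ?_⟩
  · have k1 := dvd_iff_isRoot.mp ((dvd_pow_self _ (Nat.succ_ne_zero _)).trans g1)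
    have k2 := dvd_iff_isRoot.mp ((dvd_pow_self _ (Nat.succ_ne_zero _)).trans g2)
    have e0 : W c.w 1 = c.w := rfl
    have e1 : P c.w 1 = 1 := rfl
    simp only [IsRoot.def, eval_sub, eval_mul, eval_pow, eval_C, eval_X, eval_comp, hUa, eval_sg,
      sub_eq_zero, e0, e1] at k1 k2
    rw [← k1, ← k2] at h
    field_simp at h
    refine mul_ne_zero h0 (pow_ne_zero 2 (sub_ne_zero.mpr hs)) ?_
    linear_combination -h
  · set ψ := Ideal.Quotient.mk (Ideal.span {(X - C c.s) ^ (M + 2)}) with hψ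
    have z : ∀ {q : F[X]}, ψ q = 0 ↔ (X - C c.s) ^ (M + 2) ∣ q := by
      intro q; rw [hψ, Ideal.Quotient.eq_zero_iff_mem, Ideal.mem_span_singleton]
    have k0 : ψ (hh c.w) * ψ U = 1 := by
      have := congrArg ψ hU
      rwa [map_add, map_mul, z.mpr dvd_rfl, mul_zero, zero_add, map_one, map_mul, mul_comm] at this
    have k : ∀ {q : F[X]}, q.natDegree ≤ n → ψ (cl c.w n q) = ψ (hh c.w) ^ n * ψ (q.comp U) :=
      fun hq => by rw [cl_map ψ k0 hq, Polynomial.comp, hom_eval₂]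
    have k1 := z.mpr g1
    have k2 := z.mpr g2
    have k3 : ψ (U - C c.a) ^ (M + 2) = 0 := by
      rw [← map_pow, hυ, mul_pow]; exact z.mpr (dvd_mul_right _ _)
    have k4 : ψ (C (1 - μ)⁻¹) * (1 - ψ (C μ)) = 1 := by
      rw [← map_one ψ, ← map_sub, ← map_mul, ← C_1, ← map_sub, ← map_mul, inv_mul_cancel₀ hμ]
    rw [← z]
    simp only [ff, map_add, map_mul, map_sub, map_pow, sg_cl c.hw, k d0, k d1, k d2, sub_comp,
      mul_comp, pow_comp, X_comp, C_comp] at k1 k2 k3 ⊢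
    rw [k3]
    generalize ψ (hh c.w) ^ n = H
    linear_combination H * (1 - ψ (C μ)) * (ψ (x1.comp U) * k1 + ψ (x2.comp U) * k2) -
      H * (ψ (x1.comp U) * (ψ X - ψ (C μ) * ψ (sg c.w 1 X)) +
        ψ (x2.comp U) * (ψ X ^ 2 - ψ (C μ) * ψ (sg c.w 1 X) ^ 2)) * k4

/-- the three roots -/
noncomputable def tt (w : F) (t : LaurentSeries F) (i : Fin 3) : LaurentSeries F :=
  HahnSeries.C (W w i) * t + HahnSeries.C (P w i)

theorem ev_tt (w : F) (t : LaurentSeries F) (i : Fin 3) (q : F[X]) :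
    ev (tt w t i) q = ev t (sg w i q) := by
  have : ev (tt w t i) = (ev t).comp (sg w i : F[X] →+* F[X]) := by
    refine ringHom_ext (fun a => ?_) ?_
    · simp [sg_C]
    · simp [sg_X, tt]
  rw [this]; rfl

section lat
variable {w : F} (hw : w ^ 2 + w + 1 = 0) {t : LaurentSeries F} (ht : vv t = exp (-1))
include hw ht

theorem vv_tt (i : Fin 3) : vv (tt w t i - HahnSeries.C (P w i)) = exp (-1) := by
  rw [tt, add_sub_cancel_right, map_mul, vv_C (W_ne hw i), ht, one_mul]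

theorem vv_sub {i j : Fin 3} (h : i ≠ j) : vv (tt w t i - tt w t j) = 1 := by
  have h1 := vv_C (sub_ne_zero.mpr ((P_inj hw).ne h))
  have e : tt w t i - tt w t j = HahnSeries.C (P w i - P w j) +
      ((tt w t i - HahnSeries.C (P w i)) - (tt w t j - HahnSeries.C (P w j))) := by
    rw [map_sub]; ring
  rw [e, Valuation.map_add_eq_of_lt_left, h1]
  rw [h1]
  exact (Valuation.map_sub_le _ (vv_tt hw ht i).le (vv_tt hw ht j).le).trans_lt exp_neg_lt

theorem tt_ne {i j : Fin 3} (h : i ≠ j) : tt w t i - tt w t j ≠ 0 := fun e => by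
  have := vv_sub hw ht h
  rw [e, map_zero] at this
  exact zero_ne_one this

theorem tt_ne0 (i : Fin 3) : tt w t i ≠ 0 := fun e => by
  have := val_ev (vv_tt hw ht i) X_ne_zero
  rw [ev_X, e, map_zero] at this
  exact exp_ne_zero this.symm

theorem tri_zero {z0 z1 z2 : F[X]}
    (h : ∀ i, emb F z0 + tt w t i * emb F z1 + tt w t i ^ 2 * emb F z2 = 0) :
    z0 = 0 ∧ z1 = 0 ∧ z2 = 0 := by
  have inj : ∀ {z : F[X]}, emb F z = 0 → z = 0 := fun hz =>
    ev_inj (vv_uu (F := F) 1) one_ne_zero (by rw [map_zero]; exact hz)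
  have a := tt_ne hw ht (show (0 : Fin 3) ≠ 1 by decide)
  have b := tt_ne hw ht (show (0 : Fin 3) ≠ 2 by decide)
  have d := tt_ne hw ht (show (1 : Fin 3) ≠ 2 by decide)
  have e2 : emb F z2 = 0 := by
    apply mul_left_cancel₀ (mul_ne_zero (mul_ne_zero a b) d)
    linear_combination (tt w t 1 - tt w t 2) * h 0 - (tt w t 0 - tt w t 2) * h 1 +
      (tt w t 0 - tt w t 1) * h 2
  have e1 : emb F z1 = 0 := by
    apply mul_left_cancel₀ a
    linear_combination h 0 - h 1 - (tt w t 0 ^ 2 - tt w t 1 ^ 2) * e2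
  exact ⟨inj (by linear_combination h 0 - tt w t 0 * e1 - tt w t 0 ^ 2 * e2), inj e1, inj e2⟩

end lat

/-- the matrix of the lattice -/
noncomputable def GG (w : F) (t : LaurentSeries F) (π f1 f2 : F[X]) :
    Matrix (Fin 3) (Fin 3) (LaurentSeries F) :=
  Matrix.of fun i => ![emb F π, tt w t i - emb F f1, tt w t i ^ 2 - emb F f2]

theorem GG_mulVec (w : F) (t : LaurentSeries F) (π f1 f2 : F[X]) (x : Fin 3 → F[X]) (i : Fin 3) :
    (GG w t π f1 f2 *ᵥ fun j => emb F (x j)) i = emb F (π * x 0 - f1 * x 1 - f2 * x 2) +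
      tt w t i * emb F (x 1) + tt w t i ^ 2 * emb F (x 2) := by
  simp [GG, mulVec, dotProduct, Fin.sum_univ_three]
  ring

theorem GG_det (w : F) (t : LaurentSeries F) (π f1 f2 : F[X]) : (GG w t π f1 f2).det =
    emb F π * ((tt w t 1 - tt w t 0) * (tt w t 2 - tt w t 0) * (tt w t 2 - tt w t 1)) := by
  simp [GG, det_fin_three]
  ring

theorem vv_pi (a : F) (N : ℕ) : vv (emb F ((X - C a) ^ N)) = exp (N : ℤ) := by
  rw [map_pow, map_pow, map_sub, emb_eq, ev_X, ev_C, Valuation.map_sub_eq_of_lt_left, vv_uu,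
    ← WithZero.exp_nsmul]
  · simp
  · rw [vv_uu]
    exact (vv_C_le a).trans_lt (by rw [← exp_zero, exp_lt_exp]; norm_num)

theorem GG_vv {w : F} (hw : w ^ 2 + w + 1 = 0) {t : LaurentSeries F} (ht : vv t = exp (-1))
    (a : F) (N : ℕ) (f1 f2 : F[X]) : vv (GG w t ((X - C a) ^ N) f1 f2).det = exp (N : ℤ) := by
  rw [GG_det, map_mul, map_mul, map_mul, vv_pi, vv_sub hw ht (by decide),
    vv_sub hw ht (by decide), vv_sub hw ht (by decide)]
  simp

variable [hp : Fact p.Prime] [CharP F p] [Finite F]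

theorem Ctx.min_G {t : LaurentSeries F} (ht : vv t = exp (-1)) (hr : ev t (hh c.w) = uu F (-1))
    {μ : F} (hμ : c.φ μ ≠ μ) (k : ℕ) {f1 f2 : F[X]}
    (hg : ∀ (x0 x1 x2 : F[X]) (n : ℕ),
      ((X - C c.a) ^ p ^ (k + 1) * x0 - f1 * x1 - f2 * x2).natDegree ≤ n → x1.natDegree ≤ n →
      x2.natDegree ≤ n → (X - C c.s) ^ p ^ (k + 1) ∣
        ff c.w n ((X - C c.a) ^ p ^ (k + 1) * x0 - f1 * x1 - f2 * x2) x1 x2 - C (μ ^ p ^ (k + 1)) *
          sg c.w 1 (ff c.w n ((X - C c.a) ^ p ^ (k + 1) * x0 - f1 * x1 - f2 * x2) x1 x2))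
    (x : Fin 3 → F[X]) (hx : x ≠ 0) :
    vv (GG c.w t ((X - C c.a) ^ p ^ (k + 1)) f1 f2).det ≤
      (∏ i, vv ((GG c.w t ((X - C c.a) ^ p ^ (k + 1)) f1 f2 *ᵥ fun j => emb F (x j)) i)) *
        exp 2 := by
  set z := (X - C c.a) ^ p ^ (k + 1) * x 0 - f1 * x 1 - f2 * x 2 with hz
  set n := z.natDegree + (x 1).natDegree + (x 2).natDegree with hn
  have d0 : z.natDegree ≤ n := by omega
  have d1 : (x 1).natDegree ≤ n := by omega
  have d2 : (x 2).natDegree ≤ n := by omega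
  have h1 := hg (x 0) (x 1) (x 2) n d0 d1 d2
  rw [← hz] at h1
  set f := ff c.w n z (x 1) (x 2) with hf
  have h2 : ∀ i, ev (tt c.w t i) f = uu F (-1) ^ n *
      (emb F z + tt c.w t i * emb F (x 1) + tt c.w t i ^ 2 * emb F (x 2)) := by
    intro i
    have e0 : ev (tt c.w t i) (hh c.w) = uu F (-1) := by rw [ev_tt, sg_hh c.hw, hr]
    have e1 : ∀ {q : F[X]}, q.natDegree ≤ n →
        ev (tt c.w t i) (cl c.w n q) = uu F (-1) ^ n * emb F q := fun hq => by
      rw [cl_map (u := uu F 1) _ (by rw [e0]; exact xu) hq, e0]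
      congr 2
      ext1 a
      exact ev_C _ a
    simp only [hf, ff, map_add, map_mul, map_pow, e1 d0, e1 d1, e1 d2, ev_X]
    ring
  have f0 : f ≠ 0 := by
    intro h
    obtain ⟨a0, a1, a2⟩ := tri_zero c.hw ht (z0 := z) (z1 := x 1) (z2 := x 2) fun i => by
      have := h2 i
      rw [h, map_zero] at this
      exact (mul_eq_zero.mp this.symm).resolve_left (pow_ne_zero _ (uu_ne _))
    rw [hz, a1, a2, mul_zero, mul_zero, sub_zero, sub_zero] at a0
    have a3 := (mul_eq_zero.mp a0).resolve_left (pow_ne_zero _ (X_sub_C_ne_zero _))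
    refine hx (funext fun i => ?_)
    fin_cases i
    exacts [a3, a1, a2]
  set e : Fin 3 → ℕ := fun i => f.rootMultiplicity (P c.w i) with he
  have key : e 0 + e 1 + e 2 + p ^ (k + 1) ≤ 3 * n + 2 := by
    by_contra hlt
    have h3 := c.perfect hμ k (z := e) (f := fun i => sg c.w i f) (fun r => ?_) fun i => ?_
    · exact f0 (by simpa [sg_zero] using congrFun h3 0)
    · have e1 : rh c.w r (fun i => sg c.w i f) = fun i => sg c.w i f := by
        funext i; rw [rh_apply, sg_sg c.hw, add_sub_cancel]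
      rw [e1]
      refine ⟨fun i => ?_, by simpa only [sg_zero] using h1⟩
      have := map_dvd (sg c.w i) (pow_rootMultiplicity_dvd f (P c.w i))
      rw [map_pow, map_sub, sg_X, sg_C, add_sub_cancel_right, mul_pow] at this
      exact (dvd_mul_left _ _).trans this
    · refine pl.sg (pl.mono (d := 3 * n + 1 + 2) ?_ (by omega)) _ _
      exact (((cl_pl _ _ _).mono (by omega)).add (((cl_pl _ _ _).mul
        (pl_succ.mpr natDegree_X_le)).mono (by omega))).add
          ((cl_pl _ _ _).mul (pl_succ.mpr (natDegree_X_pow_le 2)))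
  have h4 : ∀ i, vv ((GG c.w t ((X - C c.a) ^ p ^ (k + 1)) f1 f2 *ᵥ fun j => emb F (x j)) i) =
      exp ((n : ℤ) - e i) := by
    intro i
    have h5 := val_ev (vv_tt c.hw ht i) f0
    rw [h2, map_mul, map_pow, vv_uu, ← GG_mulVec, ← WithZero.exp_nsmul] at h5
    apply mul_left_cancel₀ (exp_ne_zero (a := n • (-1 : ℤ)))
    rw [h5, ← exp_add]
    congr 1
    simp only [he, nsmul_eq_mul]
    ring
  rw [GG_vv c.hw ht, Fin.prod_univ_three, h4, h4, h4, ← exp_add, ← exp_add, ← exp_add, exp_le_exp]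
  omega

theorem Ctx.main (hs : c.w * c.s + 1 ≠ c.s) {μ : F} (hμ : c.φ μ ≠ μ) :
    ∃ Ω : Set (GL (Fin 3) (LaurentSeries F) ⧸ Gam F 3), IsCompact Ω ∧
      {O | (∃ x, O = orb x) ∧ IsCompact O ∧ O ⊆ Ω}.Infinite := by
  obtain ⟨t, ht, hr⟩ := exists_root c.hw
  have h2 := hp.out.two_le
  have μ0 : μ ≠ 0 := by rintro rfl; exact hμ (map_zero _)
  have μ1 : ∀ k, μ ^ p ^ k ≠ 1 := fun k h => hμ (by
    have : (μ - 1) ^ p ^ k = 0 := by rw [sub_pow_char_pow, h, one_pow, sub_self]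
    rw [sub_eq_zero.mp (pow_eq_zero_iff (by positivity) |>.mp this), map_one])
  choose f1 f2 hf hg using fun k : ℕ => c.level hs (N := p ^ (k + 1))
    (h2.trans (Nat.le_self_pow (Nat.succ_ne_zero k) p)) (pow_ne_zero _ μ0) (μ1 (k + 1))
  have hdet : ∀ k, (GG c.w t ((X - C c.a) ^ p ^ (k + 1)) (f1 k) (f2 k)).det ≠ 0 := fun k h => by
    have := GG_vv c.hw ht c.a (p ^ (k + 1)) (f1 k) (f2 k)
    rw [h, map_zero] at this
    exact exp_ne_zero this.symm
  set g : ℕ → GL (Fin 3) (LaurentSeries F) := fun k =>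
    GeneralLinearGroup.mkOfDetNeZero _ (hdet k) with hgd
  have gv : ∀ k, (g k).val = GG c.w t ((X - C c.a) ^ p ^ (k + 1)) (f1 k) (f2 k) := fun _ => rfl
  have hsub : ∀ k, orb (g k : _ ⧸ Gam F 3) ⊆ QuotientGroup.mk '' CC F 3 6 := by
    rintro k _ ⟨a, ha, rfl⟩
    refine into_CC3 (a * g k) fun x hx => ?_
    have e : (a * g k).val = diagonal a.val.diag * (g k).val := by
      rw [ha.diagonal_diag]; rfl
    rw [e, det_mul, det_diagonal, map_mul, map_prod, ← mulVec_mulVec]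
    simp only [mulVec_diagonal, map_mul]
    rw [Finset.prod_mul_distrib, mul_assoc]
    exact mul_le_mul' le_rfl (c.min_G ht hr hμ k (hg k) x hx)
  have eX : emb F X = uu F 1 := by rw [emb_eq, ev_X]
  have π0 : ∀ k, emb F ((X - C c.a) ^ p ^ (k + 1) * X) ≠ 0 := fun k h => by
    have := congrArg vv h
    rw [map_mul, map_mul, vv_pi, eX, vv_uu, map_zero] at this
    exact mul_ne_zero exp_ne_zero exp_ne_zero this
  set l : ℕ → GL (Fin 3) (LaurentSeries F) := fun k => GeneralLinearGroup.mkOfDetNeZero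
    (diagonal fun i => emb F ((X - C c.a) ^ p ^ (k + 1) * X) * tt c.w t i) (by
      rw [det_diagonal]
      exact Finset.prod_ne_zero_iff.mpr fun i _ => mul_ne_zero (π0 k) (tt_ne0 c.hw ht i)) with hl
  have lv : ∀ k, (l k).val =
      diagonal fun i => emb F ((X - C c.a) ^ p ^ (k + 1) * X) * tt c.w t i := fun _ => rfl
  have hd : ∀ k, (l k).val.IsDiag := fun k => isDiag_diagonal _
  have pres : ∀ k, Pres (l k) (g k) := by
    intro k
    have col : ∀ j, ∃ z0 z1 z2 : F[X], ∀ i, emb F X * tt c.w t i * (g k).val i j =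
        emb F z0 + tt c.w t i * emb F z1 + tt c.w t i ^ 2 * emb F z2 := by
      intro j
      fin_cases j
      · refine ⟨0, X * (X - C c.a) ^ p ^ (k + 1), 0, fun i => ?_⟩
        simp [gv, GG]; ring
      · refine ⟨0, -(X * f1 k), X, fun i => ?_⟩
        simp [gv, GG]; ring
      · refine ⟨1, -(X * (C c.w + 1)) - X * f2 k, X * (C c.w + 2), fun i => ?_⟩
        have e0 : ev (tt c.w t i) (hh c.w) = uu F (-1) := by rw [ev_tt, sg_hh c.hw, hr]
        rw [hh_eq] at e0
        simp only [map_mul, map_sub, map_add, map_one, ev_X, ev_C] at e0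
        have e1 : emb F (C c.w) = HahnSeries.C c.w := by rw [emb_eq, ev_C]
        have e2 : (g k).val i 2 = tt c.w t i ^ 2 - emb F (f2 k) := rfl
        simp only [Fin.reduceFinMk, e2, map_mul, map_sub, map_add, map_neg, map_one, map_ofNat, e1,
          eX]
        linear_combination uu F 1 * e0 + xu (F := F)
    choose z0 z1 z2 hz using col
    refine ⟨Matrix.of fun i j => ![z0 j + f1 k * z1 j + f2 k * z2 j,
      (X - C c.a) ^ p ^ (k + 1) * z1 j, (X - C c.a) ^ p ^ (k + 1) * z2 j] i, ?_⟩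
    ext1 i j
    rw [lv, diagonal_mul]
    refine Eq.trans ?_ (GG_mulVec c.w t _ (f1 k) (f2 k) (![z0 j + f1 k * z1 j + f2 k * z2 j,
      (X - C c.a) ^ p ^ (k + 1) * z1 j, (X - C c.a) ^ p ^ (k + 1) * z2 j]) i).symm
    simp only [cons_val_zero, cons_val_one, cons_val, map_mul, map_sub, map_add]
    linear_combination emb F ((X - C c.a) ^ p ^ (k + 1)) * hz j i
  have npres : ∀ j k, j < k → ¬ Pres (l j) (g k) := by
    rintro j k hjk ⟨N, hN⟩
    obtain ⟨a0, a1, a2⟩ := tri_zero c.hw ht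
      (z0 := (X - C c.a) ^ p ^ (k + 1) * N 0 1 - f1 k * N 1 1 - f2 k * N 2 1)
      (z1 := N 1 1 + (X - C c.a) ^ p ^ (j + 1) * X * f1 k)
      (z2 := N 2 1 - (X - C c.a) ^ p ^ (j + 1) * X) fun i => by
        have h3 := congrFun (congrFun hN i) 1
        rw [lv, diagonal_mul] at h3
        have h4 := h3.trans (GG_mulVec c.w t _ (f1 k) (f2 k) (fun r => N r 1) i)
        have e2 : (g k).val i 1 = tt c.w t i - emb F (f1 k) := rfl
        rw [e2] at h4
        rw [map_add (emb F) (N 1 1), map_sub (emb F) (N 2 1), map_mul (emb F) _ (f1 k)]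
        linear_combination -h4
    obtain ⟨d, hd⟩ := Nat.exists_eq_add_of_lt
      (Nat.pow_lt_pow_right hp.out.one_lt (Nat.succ_lt_succ hjk))
    have a3 : (X - C c.a) ^ (d + 1) * N 0 1 = X * (f2 k - f1 k ^ 2) := by
      apply mul_left_cancel₀ (pow_ne_zero (p ^ (j + 1)) (X_sub_C_ne_zero c.a))
      rw [hd, add_assoc, pow_add, Nat.succ_eq_add_one] at a0
      linear_combination a0 + f1 k * a1 + f2 k * a2
    have a4 := congrArg (eval c.a) a3
    simp only [eval_mul, eval_pow, eval_sub, eval_X, eval_C, sub_self,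
      zero_pow (Nat.succ_ne_zero _), zero_mul] at a4
    exact mul_ne_zero (inv_ne_zero c.hh_s) (sub_ne_zero.mpr (hf k)) a4.symm
  have self : ∀ k, (g k : _ ⧸ Gam F 3) ∈ orb (g k : _ ⧸ Gam F 3) :=
    fun k => ⟨1, isDiag_one, (one_smul _ _).symm⟩
  refine ⟨QuotientGroup.mk '' CC F 3 6, (compact_CC 6).image QuotientGroup.continuous_mk, ?_⟩
  refine Set.infinite_of_injective_forall_mem (f := fun k : ℕ => orb (g k : _ ⧸ Gam F 3))
    (fun j k e => ?_) fun k => ⟨⟨_, rfl⟩, ?_, hsub k⟩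
  · simp only at e
    rcases lt_trichotomy j k with h | h | h
    · exact absurd ((pres j).of_orb (hd j) (e ▸ self k)) (npres j k h)
    · exact h
    · exact absurd ((pres k).of_orb (hd k) (e ▸ self j)) (npres k j h)
  · refine orb_compact (hd k) (fun i j hij => ?_) (pres k) (hsub k)
    rw [lv, diagonal_apply_eq, diagonal_apply_eq]
    exact fun h => tt_ne c.hw ht hij (sub_eq_zero.mpr (mul_left_cancel₀ (π0 k) h))

end Pool.Agent.MP_c07293_an.H11
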