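import Pool.Agent.MP_c07293_an.H11.Gen

/-! The Frobenius step and the induction over alcoves. -/

namespace Pool.Agent.MP_c07293_an.H11

open Polynomial

variable {F : Type} [Field F] {p : ℕ} (c : Ctx F p)

/-- vanishing at the first point and gluing at the finite place -/
def M0 (s : F) (N : ℕ) (μ : F) (e : Fin 3 → ℕ) : Submodule F[X] (V F) where
  carrier := {f | (∀ i, X ^ e i ∣ f i) ∧ (X - C s) ^ N ∣ f 0 - C μ * f 1}
  add_mem' := by
    rintro f g ⟨f1, f2⟩ ⟨g1, g2⟩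
    refine ⟨fun i => dvd_add (f1 i) (g1 i), ?_⟩
    convert dvd_add f2 g2 using 1; simp only [Pi.add_apply]; ring
  zero_mem' := by simp
  smul_mem' := by
    rintro q g ⟨g1, g2⟩
    refine ⟨fun i => (g1 i).mul_left q, ?_⟩
    convert g2.mul_left q using 1; simp only [Pi.smul_apply, smul_eq_mul]; ring

/-- a trivialised alcove with an admissible label -/
def Ctx.Valid (N : ℕ) (μ : F) (e : Fin 3 → ℕ) (i k : Fin 3) : Prop :=
  ∃ (v : V F) (x y : Fin 3 → F), Top c.w (e 0 + e 1 + e 2 + N) v ∧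
    (∀ f ∈ EE c.w (M0 c.s N μ e), ∃ g, f = Ph c.w v g) ∧ x 0 = 0 ∧ y 0 = 0 ∧
    x 1 * y 2 ≠ x 2 * y 1 ∧ c.Lab x ∧
    (∀ j, ∃ r, rh c.w j v i = X ^ e i * (C (x j) + X * r)) ∧
    ∀ j, ∃ r, rh c.w j v k = X ^ e k * (C (y j) + X * r)

theorem Ctx.normal {x : Fin 3 → F} (h : c.Lab x) :
    ∃ (α β : Fin 3) (κ y : F), Ord α β ∧ κ ≠ 0 ∧ (y = 0 ∨ c.φ y ≠ y) ∧ x α = κ ∧ x β = κ * y := by
  by_cases h1 : x 1 = 0
  · refine ⟨2, 1, x 2, 0, Or.inr ⟨rfl, rfl⟩, fun h2 => ?_, Or.inl rfl, rfl, by simp [h1]⟩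
    exact h 1 one_ne_zero (map_one _) (by simp [h1, h2])
  · refine ⟨1, 2, x 1, x 2 / x 1, Or.inl ⟨rfl, rfl⟩, h1, ?_, rfl, by field_simp⟩
    by_contra h2
    push Not at h2
    refine h (x 2 / x 1)⁻¹ (inv_ne_zero h2.1) (by rw [map_inv₀, h2.2]) ?_
    have : x 2 ≠ 0 := fun h3 => h2.1 (by simp [h3])
    field_simp

theorem Ctx.Lab.mul {c : Ctx F p} {x : Fin 3 → F} (h : c.Lab x) {κ : F} (hκ : κ ≠ 0) :
    c.Lab fun j => κ * x j :=
  fun t ht ht' e => h t ht ht' (mul_left_cancel₀ hκ (by linear_combination e))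

theorem lead {a : ℕ} {A : F[X]} (h : X ^ a ∣ A) {n : ℕ} (ha : a + 1 ≤ n) (R : F[X]) :
    ∃ r, A + X ^ n * R = X ^ a * (C (A.coeff a) + X * r) := by
  obtain ⟨B, rfl⟩ := h
  obtain ⟨n, rfl⟩ := Nat.exists_eq_add_of_le ha
  refine ⟨B.divX + X ^ n * R, ?_⟩
  have h1 : (X ^ a * B).coeff a = B.coeff 0 := by simpa using coeff_X_pow_mul B a 0
  rw [h1]
  linear_combination (-X ^ a) * X_mul_divX_add B

theorem Ord.sum {i k : Fin 3} (ho : Ord i k) {e e' : Fin 3 → ℕ} {a b q : ℕ} (h0 : e' 0 = q * e 0)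
    (h1 : e' i = q * e i + a) (h2 : e' k = q * e k + b) :
    e' 0 + e' 1 + e' 2 = a + b + q * (e 0 + e 1 + e 2) ∧ ∀ j, q * e j ≤ e' j := by
  rcases ho with ⟨rfl, rfl⟩ | ⟨rfl, rfl⟩ <;>
    refine ⟨by rw [h0, h1, h2]; ring, fun j => ?_⟩ <;> fin_cases j <;> simp [h0, h1, h2]

/-- the diagonal generator -/
noncomputable def DD (w : F) (e : Fin 3 → ℕ) : F[X] := ∏ r, (X - C (P w r)) ^ e r

theorem DD_monic (w : F) (e : Fin 3 → ℕ) : (DD w e).Monic :=
  monic_prod_of_monic _ _ fun _ _ => (monic_X_sub_C _).pow _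

theorem DD_deg (w : F) (e : Fin 3 → ℕ) : (DD w e).natDegree = e 0 + e 1 + e 2 := by
  rw [DD, natDegree_prod_of_monic _ _ fun _ _ => (monic_X_sub_C _).pow _, Fin.sum_univ_three]
  simp

theorem Ph_single (w : F) (D : F[X]) (g : V F) (i : Fin 3) :
    Ph w (Pi.single 0 D) g i = g i * sg w i D := by
  rw [Ph_apply, Finset.sum_eq_single i]
  · rw [rh_apply, sub_self, Pi.single_eq_same]
  · intro j _ hj
    rw [rh_apply, Pi.single_eq_of_ne (sub_ne_zero.mpr hj.symm), map_zero, mul_zero]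
  · simp

theorem DD_loc {w : F} (hw : w ^ 2 + w + 1 = 0) (e : Fin 3 → ℕ) (i : Fin 3) :
    ∃ κ : F, κ ≠ 0 ∧ ∀ q : F[X], ∃ r, q * sg w i (DD w e) = X ^ e i * (C (κ * q.coeff 0) + X * r) := by
  set D' : F[X] := C (W w i) ^ e i * ∏ r ∈ Finset.univ.erase i, (sg w i (X - C (P w r))) ^ e r
    with hD
  have h1 : sg w i (DD w e) = X ^ e i * D' := by
    rw [DD, map_prod, ← Finset.mul_prod_erase _ _ (Finset.mem_univ i), hD]
    simp only [map_pow, map_sub, sg_X, sg_C, add_sub_cancel_right, mul_pow]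
    ring
  refine ⟨D'.coeff 0, ?_, fun q => ⟨(q * D').divX, ?_⟩⟩
  · rw [coeff_zero_eq_eval_zero, hD, eval_mul, eval_prod]
    refine mul_ne_zero (by simp [W_ne hw]) (Finset.prod_ne_zero_iff.mpr fun r hr => ?_)
    rw [eval_pow, eval_sg]
    refine pow_ne_zero _ ?_
    simpa [sub_eq_zero] using (P_inj hw).ne (Finset.ne_of_mem_erase hr).symm
  · rw [h1, mul_comm (D'.coeff 0), ← mul_coeff_zero]
    linear_combination (-X ^ e i) * X_mul_divX_add (q * D')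

theorem Ctx.base (hp : 2 ≤ p) {μ : F} (hμ : c.φ μ ≠ μ) (e : Fin 3 → ℕ) {i k : Fin 3}
    (ho : Ord i k) : c.Valid 1 μ e i k := by
  have hT : Top c.w (e 0 + e 1 + e 2) (Pi.single 0 (DD c.w e)) := by
    refine top_of (fun j => ?_) fun u hu => funext fun j => ?_
    · by_cases hj : j = 0
      · subst hj
        rw [Pi.single_eq_same]
        exact pl_succ.mpr (DD_deg _ _).le
      · rw [Pi.single_eq_of_ne hj]
        exact pl_of_zero _
    · have h1 := (hu j).sg c.w (-j)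
      rw [Ph_single, map_mul, sg_sg c.hw, neg_add_cancel, sg_zero, cst, sg_C] at h1
      have h2 := h1.of_dvd (dvd_mul_left _ _) (DD_deg _ _).ge
      simpa [(DD_monic c.w e).ne_zero] using h2
  have hD : ∀ x, (∀ r, x ≠ P c.w r) → c.φ x = x →
      (DD c.w e).eval x ≠ 0 ∧ c.φ ((DD c.w e).eval x) = (DD c.w e).eval x := by
    intro x h1 h2
    simp only [DD, eval_prod, eval_pow, eval_sub, eval_X, eval_C, map_prod, map_pow, map_sub, h2,
      c.φP, and_true]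
    exact Finset.prod_ne_zero_iff.mpr fun r _ => pow_ne_zero _ (sub_ne_zero.mpr (h1 r))
  obtain ⟨d0, d0'⟩ := hD c.s c.hs c.φs
  obtain ⟨d1, d1'⟩ := hD (W c.w 1 * c.s + P c.w 1) (fun r h => by
    have h1 := P_add c.hw (r - 1) 1
    rw [sub_add_cancel] at h1
    exact c.hs (r - 1) (mul_left_cancel₀ (W_ne c.hw 1) (by linear_combination h + h1)))
    (by rw [map_add, map_mul, c.φW, c.φP, c.φs])
  set y := μ * (DD c.w e).eval (W c.w 1 * c.s + P c.w 1) / (DD c.w e).eval c.s with hy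
  have hy' : c.φ y ≠ y := by
    rw [hy, map_div₀, map_mul, d0', d1']
    intro h
    field_simp at h
    exact hμ h
  obtain ⟨ψ, t1, t2, t3, t4, t5, t6, t7, -⟩ :=
    c.child (δ := 1) (a := 0) (b := 0) ho (map_zero c.φ) (Or.inr hy') le_rfl (by omega)
  obtain ⟨κ, hκ, l1⟩ := DD_loc c.hw e i
  obtain ⟨κ', hκ', l2⟩ := DD_loc c.hw e k
  refine ⟨Ph c.w (Pi.single 0 (DD c.w e)) ψ, fun j => κ * L1 i k 0 (0 * y) (rh c.w j ψ),
    fun j => κ' * cf k 0 (rh c.w j ψ), ?_, fun f hf => ?_, by simp only [rh_zero, t4, mul_zero],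
    by simp only [rh_zero, t5, mul_zero], fun h => t6 ?_, t7.mul hκ, fun j => ?_, fun j => ?_⟩
  · have := hT.comp c.hw t1
    rwa [zero_add, zero_add, add_comm] at this
  · have h1 : ∀ j, sg c.w j (DD c.w e) ∣ f j := by
      intro j
      have h2 : DD c.w e ∣ sg c.w (-j) (f j) := by
        refine Finset.prod_dvd_of_coprime (fun a _ b _ hab => ?_) fun r _ => root_dvd c.hw r ?_
        · exact (isCoprime_X_sub_C_of_isUnit_sub
            (sub_ne_zero.mpr ((P_inj c.hw).ne hab)).isUnit).pow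
        · have := (hf (r - j)).1 r
          rwa [rh_apply, sub_sub_cancel, sub_eq_add_neg, ← sg_sg c.hw] at this
      have h3 := map_dvd (sg c.w j) h2
      rwa [sg_sg c.hw, add_neg_cancel, sg_zero] at h3
    choose g hg using h1
    have e1 : f = Ph c.w (Pi.single 0 (DD c.w e)) g := by
      funext j; rw [Ph_single, hg j, mul_comm]
    obtain ⟨u, hu⟩ := t3 g fun r => ⟨by simp, by simp, by
      have h2 := (hf r).2
      rw [e1, rh_Ph c.hw, Ph_single, Ph_single, sg_zero, pow_one, dvd_iff_isRoot, IsRoot.def] at h2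
      rw [pow_one, dvd_iff_isRoot, IsRoot.def]
      simp only [eval_sub, eval_mul, eval_C, eval_sg c.w 1 (DD c.w e)] at h2 ⊢
      rw [hy]
      field_simp
      linear_combination h2⟩
    exact ⟨u, by rw [← Ph_Ph c.hw, ← hu, e1]⟩
  · exact mul_left_cancel₀ (mul_ne_zero hκ hκ') (by linear_combination h)
  · rw [rh_Ph c.hw, Ph_single]
    simpa [L1_apply] using l1 (rh c.w j ψ i)
  · rw [rh_Ph c.hw, Ph_single]
    exact l2 _

variable [hp : Fact p.Prime] [CharP F p] [Finite F]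

/-- the Frobenius of a triple -/
noncomputable def fr (p : ℕ) (v : V F) : V F := fun i => v i ^ p

omit hp [CharP F p] [Finite F] in
theorem rh_fr (w : F) (j : Fin 3) (v : V F) : rh w j (fr p v) = fr p (rh w j v) := by
  funext i; simp only [rh_apply, fr, map_pow]

theorem Top.fr {w : F} {m : ℕ} {v : V F} (h : Top w m v) : Top w (p * m) (fr p v) := by
  refine ⟨fun i => pl_succ.mpr (natDegree_pow_le.trans (Nat.mul_le_mul_left _
    (pl_succ.mp (h.1 i)))), fun u hu => ?_⟩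
  choose u' hu' using fun j => (frobeniusEquiv F p).surjective (u j)
  have h1 : u' = 0 := h.2 u' fun i => by
    have h2 : Ph w (H11.fr p v) (cst u) i = (Ph w v (cst u') i) ^ p := by
      rw [Ph_apply, Ph_apply, sum_pow_char]
      refine Finset.sum_congr rfl fun j _ => ?_
      rw [rh_fr, mul_pow, cst, cst, ← C_pow, ← hu' j]
      rfl
    have h3 := hu i
    rw [h2, coeff_pow_of_natDegree_le (pl_succ.mp (by
      rw [add_comm]; exact (Lt_cst u').Ph h.1 w i))] at h3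
    exact pow_eq_zero_iff hp.out.ne_zero |>.mp h3
  funext j
  rw [← hu' j, h1]
  simp

theorem Ctx.Lab.fr {c : Ctx F p} {x : Fin 3 → F} (h : c.Lab x) : c.Lab fun j => x j ^ p := by
  intro t ht ht' e
  obtain ⟨t', rfl⟩ := (frobeniusEquiv F p).surjective t
  have e1 : frobeniusEquiv F p t' = t' ^ p := rfl
  rw [e1] at ht ht' e
  refine h t' (fun h0 => ht (by rw [h0, zero_pow hp.out.ne_zero])) ?_ ?_
  · apply (frobenius F p).injective
    rwa [frobenius_def, frobenius_def, ← map_pow]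
  · apply (frobenius F p).injective
    rwa [frobenius_def, frobenius_def, mul_pow]

theorem car_sg {w : F} (hw : w ^ 2 + w + 1 = 0) (r : Fin 3) {Q : F[X]} {h : Fin p → F[X]}
    (hd : Q ^ p ∣ sg w r (∑ s : Fin p, X ^ (s : ℕ) * h s ^ p)) (t : Fin p) : Q ∣ sg w r (h t) := by
  have h1 := map_dvd (sg w (-r)) hd
  rw [sg_sg hw, neg_add_cancel, sg_zero, map_pow] at h1
  have h2 := map_dvd (sg w r) (car_dvd p h1 t)
  rwa [sg_sg hw, add_neg_cancel, sg_zero] at h2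

theorem gen_fr {w s μ : F} (hw : w ^ 2 + w + 1 = 0) {N : ℕ} {e e' : Fin 3 → ℕ} {v : V F}
    (h : ∀ f ∈ EE w (M0 s N μ e), ∃ g, f = Ph w v g) (he : ∀ j, p * e j ≤ e' j) :
    ∀ f ∈ EE w (M0 s (p * N) (μ ^ p) e'), ∃ g, f = Ph w (fr p v) g := by
  intro f hf
  choose u hu using fun i => car_ex p (f i)
  have h1 : ∀ t, (fun i => u i t) ∈ EE w (M0 s N μ e) := by
    intro t r
    refine ⟨fun i => car_sg hw r ?_ t, ?_⟩
    · rw [← hu, ← pow_mul, mul_comm]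
      exact (pow_dvd_pow _ (he i)).trans ((hf r).1 i)
    · have h2 := (hf r).2
      have h3 := car_sg hw r (Q := (X - C s) ^ N) (h := fun t => u (0 - r) t - C μ * u (1 - r) t)
        (by
          rw [← pow_mul, mul_comm N]
          convert h2 using 1
          rw [rh_apply, rh_apply, hu (0 - r), hu (1 - r), ← sg_C w r (μ ^ p), ← map_mul, ← map_sub,
            Finset.mul_sum, ← Finset.sum_sub_distrib]
          congr 1
          refine Finset.sum_congr rfl fun t _ => ?_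
          rw [sub_pow_char, mul_pow, C_pow]
          ring) t
      rwa [map_sub, map_mul, sg_C] at h3
  choose g hg using fun t => h _ (h1 t)
  refine ⟨fun j => ∑ t : Fin p, X ^ (t : ℕ) * g t j ^ p, funext fun i => ?_⟩
  rw [hu i, Ph_apply]
  simp only [Finset.sum_mul]
  rw [Finset.sum_comm]
  refine Finset.sum_congr rfl fun t _ => ?_
  rw [congrFun (hg t) i, Ph_apply, sum_pow_char, Finset.mul_sum]
  refine Finset.sum_congr rfl fun j _ => ?_
  rw [rh_fr, mul_pow, mul_assoc]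
  rfl

omit [Finite F] in
theorem row_fr {w : F} {v : V F} {i : Fin 3} {n : ℕ} {x : Fin 3 → F} (h0 : x 0 = 0)
    (h : ∀ j, ∃ r, rh w j v i = X ^ n * (C (x j) + X * r)) (g : V F) :
    ∃ R, Ph w (fr p v) g i =
      X ^ (p * n) * (C (x 1 ^ p) * g 1 + C (x 2 ^ p) * g 2 + X ^ p * R) := by
  choose r hr using h
  refine ⟨∑ j, g j * r j ^ p, ?_⟩
  rw [Ph_apply]
  simp only [rh_fr, fr, hr, mul_pow, add_pow_char, Fin.sum_univ_three, h0, map_zero,
    zero_pow hp.out.ne_zero, C_pow, ← pow_mul, mul_comm n p]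
  ring

theorem Ctx.parent {N : ℕ} {μ : F} {e : Fin 3 → ℕ} {i k : Fin 3} (h : c.Valid N μ e i k) :
    ∃ (v : V F) (α β : Fin 3) (y κ κ1 κ2 : F), Ord α β ∧ (y = 0 ∨ c.φ y ≠ y) ∧ κ ≠ 0 ∧ κ2 ≠ 0 ∧
      Top c.w (p * (e 0 + e 1 + e 2 + N)) v ∧
      (∀ g, ∃ R, Ph c.w v g i = X ^ (p * e i) * (C κ * (g α + C (1 * y) * g β) + X ^ p * R)) ∧
      (∀ g, ∃ R, Ph c.w v g k = X ^ (p * e k) *
        (C κ1 * (g α + C (1 * y) * g β) + C κ2 * g β + X ^ p * R)) ∧
      ∀ (e' : Fin 3 → ℕ) (a b : ℕ), b ≤ a → a ≤ p → (∀ j, p * e j ≤ e' j) → e' i = p * e i + a →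
        e' k = p * e k + b → ∀ f ∈ EE c.w (M0 c.s (p * N) (μ ^ p) e'),
          ∃ g ∈ EE c.w (N0 c.s α β 0 a b (1 * y) y), f = Ph c.w v g := by
  obtain ⟨v, x, z, hT, hg, x0, z0, hd, hl, r1, r2⟩ := h
  obtain ⟨α, β, κ, y, ho, hκ, hy, e1, e2⟩ := c.normal hl.fr
  have hd' : x 1 ^ p * z 2 ^ p ≠ x 2 ^ p * z 1 ^ p := fun h => hd ((frobenius F p).injective (by
    rwa [frobenius_def, frobenius_def, mul_pow, mul_pow]))
  have hκ2 : z β ^ p - z α ^ p * y ≠ 0 := by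
    intro h
    rcases ho with ⟨rfl, rfl⟩ | ⟨rfl, rfl⟩ <;> refine hd' ?_ <;> rw [e1, e2]
    · linear_combination κ * h
    · linear_combination (-κ) * h
  have s1 : ∀ g, ∃ R, Ph c.w (fr p v) g i =
      X ^ (p * e i) * (C κ * (g α + C (1 * y) * g β) + X ^ p * R) := by
    intro g
    obtain ⟨R, hR⟩ := row_fr (p := p) x0 r1 g
    refine ⟨R, ?_⟩
    rcases ho with ⟨rfl, rfl⟩ | ⟨rfl, rfl⟩ <;> rw [hR, e1, e2, one_mul, map_mul] <;> ring
  have s2 : ∀ g, ∃ R, Ph c.w (fr p v) g k = X ^ (p * e k) *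
      (C (z α ^ p) * (g α + C (1 * y) * g β) + C (z β ^ p - z α ^ p * y) * g β + X ^ p * R) := by
    intro g
    obtain ⟨R, hR⟩ := row_fr (p := p) z0 r2 g
    refine ⟨R, ?_⟩
    rcases ho with ⟨rfl, rfl⟩ | ⟨rfl, rfl⟩ <;> rw [hR, one_mul, map_sub, map_mul] <;> ring
  refine ⟨fr p v, α, β, y, κ, z α ^ p, _, ho, hy, hκ, hκ2, hT.fr, s1, s2,
    fun e' a b hb ha he f1 f2 f hf => ?_⟩
  obtain ⟨g, rfl⟩ := gen_fr c.hw hg he f hf
  refine ⟨g, fun r => ?_, rfl⟩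
  have h1 := (hf r).1 i
  have h2 := (hf r).1 k
  obtain ⟨R1, q1⟩ := s1 (rh c.w r g)
  obtain ⟨R2, q2⟩ := s2 (rh c.w r g)
  rw [rh_Ph c.hw, q1, f1, pow_add, mul_dvd_mul_iff_left (pow_ne_zero _ X_ne_zero),
    dvd_add_left ((pow_dvd_pow _ ha).mul_right _), (isUnit_C.mpr hκ.isUnit).dvd_mul_left] at h1
  rw [rh_Ph c.hw, q2, f2, pow_add, mul_dvd_mul_iff_left (pow_ne_zero _ X_ne_zero),
    dvd_add_left ((pow_dvd_pow _ (hb.trans ha)).mul_right _),
    dvd_add_right (((pow_dvd_pow _ hb).trans h1).mul_left _),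
    (isUnit_C.mpr hκ2.isUnit).dvd_mul_left] at h2
  exact ⟨h2, h1, by simp⟩

theorem Ctx.vertex {N : ℕ} {μ : F} {e e' : Fin 3 → ℕ} {i k : Fin 3} (h : c.Valid N μ e i k)
    (ho : Ord i k) {a b : ℕ} (hb : b ≤ a) (ha : a ≤ p) (h0 : e' 0 = p * e 0)
    (h1 : e' i = p * e i + a) (h2 : e' k = p * e k + b) {f : V F}
    (hf : f ∈ EE c.w (M0 c.s (p * N) (μ ^ p) e')) (hl : Lt (e' 0 + e' 1 + e' 2 + p * N) f) :
    f = 0 := by
  obtain ⟨v, α, β, y, κ, κ1, κ2, ho', hy, -, -, hT, -, -, hg⟩ := c.parent h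
  obtain ⟨e1, e2⟩ := ho.sum h0 h1 h2
  obtain ⟨g, g1, rfl⟩ := hg e' a b hb ha e2 h1 h2 f hf
  rw [c.good ho'.ne (map_one _) hy (Nat.zero_le _) (by omega) g1 (hT.deg (by
    rw [e1] at hl
    convert hl using 1; ring)), map_zero]

theorem Ctx.step {N : ℕ} {μ : F} {e e' : Fin 3 → ℕ} {i k : Fin 3} (h : c.Valid N μ e i k)
    (ho : Ord i k) {a b : ℕ} (hb : b ≤ a) (ha : a + 1 ≤ p) (h0 : e' 0 = p * e 0)
    (h1 : e' i = p * e i + a) (h2 : e' k = p * e k + b) :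
    c.Valid (p * N) (μ ^ p) e' i k ∧ (b < a → c.Valid (p * N) (μ ^ p) e' k i) := by
  obtain ⟨v, α, β, y, κ, κ1, κ2, ho', hy, hκ, hκ2, hT, s1, s2, hg⟩ := c.parent h
  obtain ⟨e1, e2⟩ := ho.sum h0 h1 h2
  obtain ⟨ψ, t1, t2, t3, t4, t5, t6, t7, t8⟩ :=
    c.child (δ := 0) (a := a) (b := b) ho' (map_one c.φ) hy (Nat.zero_le _) (by omega)
  have u1 : Top c.w (e' 0 + e' 1 + e' 2 + p * N) (Ph c.w v ψ) := by
    convert hT.comp c.hw t1 using 1
    rw [e1]; ring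
  have u2 : ∀ f ∈ EE c.w (M0 c.s (p * N) (μ ^ p) e'), ∃ g, f = Ph c.w (Ph c.w v ψ) g := by
    intro f hf
    obtain ⟨g, g1, rfl⟩ := hg e' a b hb (by omega) e2 h1 h2 f hf
    obtain ⟨u, rfl⟩ := t3 g g1
    exact ⟨u, Ph_Ph c.hw _ _ _⟩
  have u3 : ∀ j, ∃ r, rh c.w j (Ph c.w v ψ) i =
      X ^ e' i * (C (κ * L1 α β a (1 * y) (rh c.w j ψ)) + X * r) := by
    intro j
    obtain ⟨R, hR⟩ := s1 (rh c.w j ψ)
    obtain ⟨r, hr⟩ := lead ((t2 j).2.1.mul_left (C κ)) ha R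
    exact ⟨r, by rw [rh_Ph c.hw, hR, hr, coeff_C_mul, L1_apply, h1, pow_add, mul_assoc]⟩
  have u4 : ∀ j, ∃ r, rh c.w j (Ph c.w v ψ) k = X ^ e' k *
      (C ((if b = a then κ1 else 0) * L1 α β a (1 * y) (rh c.w j ψ) +
        κ2 * cf β b (rh c.w j ψ)) + X * r) := by
    intro j
    obtain ⟨R, hR⟩ := s2 (rh c.w j ψ)
    obtain ⟨r, hr⟩ := lead (dvd_add (((pow_dvd_pow _ hb).trans (t2 j).2.1).mul_left (C κ1))
      ((t2 j).1.mul_left (C κ2))) (show b + 1 ≤ p by omega) R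
    refine ⟨r, ?_⟩
    rw [rh_Ph c.hw, hR, hr, coeff_add, coeff_C_mul, coeff_C_mul, L1_apply, h2, pow_add, mul_assoc,
      cf_apply]
    split_ifs with hab
    · rw [hab]
    · rw [X_pow_dvd_iff.mp (t2 j).2.1 b (by omega), mul_zero, zero_mul]
  refine ⟨⟨_, _, _, u1, u2, by simp only [rh_zero, t4, mul_zero],
    by simp only [rh_zero, t4, t5, mul_zero, add_zero], fun h => t6 ?_, t7.mul hκ, u3, u4⟩,
    fun hlt => ?_⟩
  · exact mul_left_cancel₀ (mul_ne_zero hκ hκ2) (by linear_combination h)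
  · simp only [if_neg hlt.ne, zero_mul, zero_add] at u4
    refine ⟨_, _, _, u1, u2, by simp only [rh_zero, t5, mul_zero],
      by simp only [rh_zero, t4, mul_zero], fun h => t6 ?_, t8.mul hκ2, u4, u3⟩
    exact mul_left_cancel₀ (mul_ne_zero hκ hκ2) (by linear_combination -h)

theorem Ctx.cover {μ : F} (hμ : c.φ μ ≠ μ) (n : ℕ) : ∀ (r : ℕ) (z : Fin 3 → ℕ),
    ∃ (d a b : ℕ) (e : Fin 3 → ℕ) (i k : Fin 3), Ord i k ∧ b ≤ a ∧ a ≤ p ^ r ∧
      c.Valid (p ^ n) (μ ^ p ^ n) e i k ∧ z 0 + d = p ^ r * e 0 ∧ z i + d = p ^ r * e i + a ∧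
      z k + d = p ^ r * e k + b := by
  have h2 := hp.out.two_le
  induction n with
  | zero =>
    intro r z
    have hq : 0 < p ^ r := by positivity
    generalize p ^ r = q at hq
    obtain ⟨q, rfl⟩ : ∃ q', q = q' + 1 := ⟨q - 1, by omega⟩
    have key : ∀ i k : Fin 3, Ord i k → (z k + q * z 0) % (q + 1) ≤ (z i + q * z 0) % (q + 1) →
        ∃ (d a b : ℕ) (e : Fin 3 → ℕ) (i k : Fin 3), Ord i k ∧ b ≤ a ∧ a ≤ q + 1 ∧
          c.Valid (p ^ 0) (μ ^ p ^ 0) e i k ∧ z 0 + d = (q + 1) * e 0 ∧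
          z i + d = (q + 1) * e i + a ∧ z k + d = (q + 1) * e k + b := by
      intro i k ho hle
      refine ⟨q * z 0, _, _, fun j => (z j + q * z 0) / (q + 1), i, k, ho, hle,
        (Nat.mod_lt _ hq).le, by simpa using c.base h2 hμ _ ho, ?_, (Nat.div_add_mod _ _).symm,
        (Nat.div_add_mod _ _).symm⟩
      have : z 0 + q * z 0 = (q + 1) * z 0 := by ring
      simp only [this, Nat.mul_div_cancel_left _ hq]
    rcases le_total ((z 2 + q * z 0) % (q + 1)) ((z 1 + q * z 0) % (q + 1)) with h | h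
    exacts [key 1 2 (Or.inl ⟨rfl, rfl⟩) h, key 2 1 (Or.inr ⟨rfl, rfl⟩) h]
  | succ n ih =>
    intro r z
    obtain ⟨d, a, b, e, i, k, ho, hb, ha, hv, z0, z1, z2⟩ := ih (r + 1) z
    have hq : 0 < p ^ r := by positivity
    rw [pow_succ] at ha z0 z1 z2
    generalize p ^ r = q at hq ha z0 z1 z2
    have split : ∀ a, a ≤ q * p → ∃ a2, a = q * min (a / q) (p - 1) + a2 ∧ a2 ≤ q := by
      intro a ha
      rcases le_total (a / q) (p - 1) with h | h
      · exact ⟨a % q, by rw [min_eq_left h, Nat.div_add_mod], (Nat.mod_lt _ hq).le⟩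
      · rw [min_eq_right h]
        obtain ⟨p', rfl⟩ : ∃ p', p = p' + 1 := ⟨p - 1, by omega⟩
        have h3 := (Nat.le_div_iff_mul_le hq).mp h
        rw [Nat.add_sub_cancel] at h3 ⊢
        exact ⟨a - q * p', by rw [mul_comm] at h3; omega, by rw [mul_add] at ha; omega⟩
    obtain ⟨a2, ea, ha2⟩ := split a ha
    obtain ⟨b2, eb, hb2⟩ := split b (hb.trans ha)
    have hle : min (b / q) (p - 1) ≤ min (a / q) (p - 1) :=
      min_le_min_right _ (Nat.div_le_div_right hb)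
    have hlt : min (a / q) (p - 1) + 1 ≤ p := by omega
    generalize min (a / q) (p - 1) = a1 at ea hle hlt
    generalize min (b / q) (p - 1) = b1 at eb hle
    obtain ⟨e', f0, f1, f2⟩ : ∃ e' : Fin 3 → ℕ, e' 0 = p * e 0 ∧ e' i = p * e i + a1 ∧
        e' k = p * e k + b1 := by
      rcases ho with ⟨rfl, rfl⟩ | ⟨rfl, rfl⟩
      exacts [⟨![p * e 0, p * e 1 + a1, p * e 2 + b1], rfl, rfl, rfl⟩,
        ⟨![p * e 0, p * e 1 + b1, p * e 2 + a1], rfl, rfl, rfl⟩]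
    obtain ⟨v1, v2⟩ := c.step hv ho hle hlt f0 f1 f2
    rw [← pow_succ', ← pow_mul, ← pow_succ] at v1 v2
    have g0 : z 0 + d = q * e' 0 := by rw [z0, f0]; ring
    have g1 : z i + d = q * e' i + a2 := by rw [z1, f1, ea]; ring
    have g2 : z k + d = q * e' k + b2 := by rw [z2, f2, eb]; ring
    rcases le_or_gt b2 a2 with h | h
    · exact ⟨d, a2, b2, e', i, k, ho, h, ha2, v1, g0, g1, g2⟩
    · refine ⟨d, b2, a2, e', k, i, ho.symm, h.le, hb2, v2 (lt_of_le_of_ne hle ?_), g0, g2, g1⟩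
      rintro rfl
      omega

/-- the cubic with the three points as roots -/
noncomputable def hh (w : F) : F[X] := DD w fun _ => 1

omit hp [CharP F p] [Finite F] in
theorem sg_hh {w : F} (hw : w ^ 2 + w + 1 = 0) (r : Fin 3) : sg w r (hh w) = hh w := by
  have h1 : ∀ j, sg w r (X - C (P w (j + r))) = C (W w r) * (X - C (P w j)) := by
    intro j
    rw [map_sub, sg_X, sg_C, P_add hw, map_add, map_mul]; ring
  have h2 : W w r ^ 3 = 1 := by
    have := w3 hw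
    fin_cases r <;> simp [W, this]
    rw [← pow_mul, mul_comm, pow_mul, this, one_pow]
  simp only [hh, DD, pow_one]
  conv_lhs => rw [← Equiv.prod_comp (Equiv.addRight r), map_prod]
  simp only [Equiv.coe_addRight, h1, Finset.prod_mul_distrib, Finset.prod_const, Finset.card_univ,
    Fintype.card_fin, ← C_pow, h2, map_one, one_mul]

theorem Ctx.perfect {μ : F} (hμ : c.φ μ ≠ μ) (n : ℕ) {z : Fin 3 → ℕ} {f : V F}
    (hf : f ∈ EE c.w (M0 c.s (p ^ (n + 1)) (μ ^ p ^ (n + 1)) z))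
    (hl : Lt (z 0 + z 1 + z 2 + p ^ (n + 1)) f) : f = 0 := by
  obtain ⟨d, a, b, e, i, k, ho, hb, ha, hv, z0, z1, z2⟩ := c.cover hμ n 1 z
  rw [pow_one] at ha z0 z1 z2
  have h1 := c.vertex (e' := fun j => z j + d) (f := hh c.w ^ d • f) hv ho hb ha z0 z1 z2
    (fun r => ?_) fun j => ?_
  · exact (smul_eq_zero.mp h1).resolve_left (pow_ne_zero _ (DD_monic _ _).ne_zero)
  · rw [rh_smul, map_pow, sg_hh c.hw, ← pow_succ', ← pow_mul, ← pow_succ]
    refine ⟨fun j => ?_, ((M0 _ _ _ z).smul_mem _ (hf r)).2⟩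
    change X ^ (z j + d) ∣ _
    rw [add_comm, pow_add]
    refine mul_dvd_mul (pow_dvd_pow_of_dvd ?_ d) ((hf r).1 j)
    have h3 := Finset.dvd_prod_of_mem (fun r => (X - C (P c.w r)) ^ 1) (Finset.mem_univ 0)
    have h4 : P c.w 0 = 0 := rfl
    simp only [h4, map_zero, sub_zero, pow_one X] at h3
    exact h3
  · have h2 : pl (3 * d + 1) (hh c.w ^ d) := pl_succ.mpr (by
      rw [natDegree_pow, hh, DD_deg, mul_comm])
    have h3 := (hl j).mul h2
    rw [mul_comm (f j)] at h3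
    convert h3 using 1
    · rw [pow_succ']; ring
    · rfl

end Pool.Agent.MP_c07293_an.H11
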